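import Mathlib

set_option autoImplicit false
set_option linter.unusedSectionVars false

namespace Pool.Agent.Helper491.RP

open Finset

section paths
variable {V : Type*} [DecidableEq V] (G : SimpleGraph V) (col : Sym2 V → ℕ)

/-- rainbow paths ending at `v`, with vertex set and edge set. -/
inductive RPath : V → Finset V → Finset (Sym2 V) → Prop
  | nil (v : V) : RPath v {v} ∅
  | cons {v : V} {vs : Finset V} {es : Finset (Sym2 V)} (w : V) (h : RPath v vs es)
      (hadj : G.Adj w v) (hw : w ∉ vs) (hc : ∀ e ∈ es, col e ≠ col s(w, v)) :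
      RPath w (insert w vs) (insert s(w, v) es)

variable {G col}

theorem RPath.mem {v : V} {vs : Finset V} {es : Finset (Sym2 V)} (h : RPath G col v vs es) :
    v ∈ vs := by
  cases h with
  | nil => simp
  | cons w h hadj hw hc => simp

theorem RPath.card {v : V} {vs : Finset V} {es : Finset (Sym2 V)} (h : RPath G col v vs es) :
    vs.card = es.card + 1 := by
  induction h with
  | nil v => simp
  | cons w h hadj hw hc ih =>
    rw [Finset.card_insert_of_notMem hw, Finset.card_insert_of_notMem, ih]
    intro hmem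
    exact hc _ hmem rfl

theorem RPath.walk {v : V} {vs : Finset V} {es : Finset (Sym2 V)} (h : RPath G col v vs es) :
    ∃ u, ∃ p : G.Walk v u, p.IsPath ∧ (p.edges.map col).Nodup ∧ p.support.toFinset = vs ∧
      p.edges.toFinset = es := by
  induction h with
  | nil v => exact ⟨v, SimpleGraph.Walk.nil, by simp, by simp, by simp, by simp⟩
  | @cons v vs es w h hadj hw hc ih =>
    obtain ⟨u, p, hp1, hp2, hp3, hp4⟩ := ih
    refine ⟨u, SimpleGraph.Walk.cons hadj p, ?_, ?_, ?_, ?_⟩
    · rw [SimpleGraph.Walk.cons_isPath_iff]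
      refine ⟨hp1, ?_⟩
      intro hmem
      apply hw
      rw [← hp3]
      exact List.mem_toFinset.mpr hmem
    · rw [SimpleGraph.Walk.edges_cons, List.map_cons, List.nodup_cons]
      refine ⟨?_, hp2⟩
      intro hmem
      rw [List.mem_map] at hmem
      obtain ⟨e, he, hce⟩ := hmem
      refine hc e ?_ hce
      rw [← hp4]
      exact List.mem_toFinset.mpr he
    · rw [SimpleGraph.Walk.support_cons, List.toFinset_cons, hp3]
    · rw [SimpleGraph.Walk.edges_cons, List.toFinset_cons, hp4]

/-- edge sets of rainbow paths -/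
def RSet (G : SimpleGraph V) (col : Sym2 V → ℕ) : Set (Finset (Sym2 V)) :=
  {P | ∃ v vs, RPath G col v vs P}

theorem RPath.mem_RSet {v : V} {vs : Finset V} {es : Finset (Sym2 V)} (h : RPath G col v vs es) :
    es ∈ RSet G col := ⟨v, vs, h⟩

theorem RPath.sub {v : V} {vs : Finset V} {es : Finset (Sym2 V)} (h : RPath G col v vs es) :
    ∀ e ∈ es, e ∈ G.edgeSet := by
  induction h with
  | nil v => simp
  | @cons v vs es w h hadj hw hc ih =>
    intro e he
    rcases Finset.mem_insert.mp he with rfl | he
    · exact hadj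
    · exact ih e he

theorem RPath.colInj {v : V} {vs : Finset V} {es : Finset (Sym2 V)} (h : RPath G col v vs es) :
    ∀ e ∈ es, ∀ f ∈ es, col e = col f → e = f := by
  induction h with
  | nil v => simp
  | @cons v vs es w h hadj hw hc ih =>
    intro e he f hf hef
    rcases Finset.mem_insert.mp he with rfl | he
    · rcases Finset.mem_insert.mp hf with rfl | hf
      · rfl
      · exact absurd hef.symm (hc f hf)
    · rcases Finset.mem_insert.mp hf with rfl | hf
      · exact absurd hef (hc e he)
      · exact ih e he f hf hef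

theorem RPath.degs {v : V} {vs : Finset V} {es : Finset (Sym2 V)} (h : RPath G col v vs es) :
    (∀ u, u ∉ vs → es.filter (fun e => u ∈ e) = ∅) ∧ (es.filter (fun e => v ∈ e)).card ≤ 1 ∧
    ∀ u, (es.filter (fun e => u ∈ e)).card ≤ 2 := by
  induction h with
  | nil v => simp
  | @cons v vs es w h hadj hw hc ih =>
    obtain ⟨ih1, ih2, ih3⟩ := ih
    have hv : v ∈ vs := h.mem
    have hstep : ∀ u, ((insert s(w, v) es).filter (fun e => u ∈ e)).card
        ≤ (es.filter (fun e => u ∈ e)).card + 1 := by
      intro u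
      rw [Finset.filter_insert]
      split_ifs
      · exact Finset.card_insert_le _ _
      · omega
    refine ⟨?_, ?_, ?_⟩
    · intro u hu
      rw [Finset.mem_insert, not_or] at hu
      rw [Finset.filter_insert, if_neg, ih1 u hu.2]
      rw [Sym2.mem_iff, not_or]
      exact ⟨hu.1, fun h => hu.2 (h ▸ hv)⟩
    · refine (hstep w).trans ?_
      rw [ih1 w hw]
      simp
    · intro u
      by_cases huv : u = v
      · subst huv
        refine (hstep u).trans ?_
        omega
      · by_cases huw : u = w
        · subst huw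
          refine (hstep u).trans ?_
          rw [ih1 u hw]
          simp
        · rw [Finset.filter_insert, if_neg]
          · exact ih3 u
          · rw [Sym2.mem_iff, not_or]
            exact ⟨huw, huv⟩

theorem RSet.star {P : Finset (Sym2 V)} (hP : P ∈ RSet G col) (u : V) (A : Finset (Sym2 V))
    (hA : ∀ e ∈ A, u ∈ e) : (P ∩ A).card ≤ 2 := by
  obtain ⟨v, vs, h⟩ := hP
  refine (Finset.card_le_card ?_).trans (h.degs.2.2 u)
  intro e he
  rw [Finset.mem_inter] at he
  exact Finset.mem_filter.mpr ⟨he.1, hA e he.2⟩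

theorem RSet.color {P : Finset (Sym2 V)} (hP : P ∈ RSet G col) (c : ℕ) (A : Finset (Sym2 V))
    (hA : ∀ e ∈ A, col e = c) : (P ∩ A).card ≤ 2 := by
  obtain ⟨v, vs, h⟩ := hP
  refine le_trans (Finset.card_le_one.mpr ?_) (by norm_num)
  intro e he f hf
  rw [Finset.mem_inter] at he hf
  exact h.colInj e he.1 f hf.1 ((hA e he.2).trans (hA f hf.2).symm)

theorem RSet.single {a b : V} (hab : G.Adj a b) : {s(a, b)} ∈ RSet G col := by
  have := RPath.cons (G := G) (col := col) a (RPath.nil b) hab (by simpa using hab.ne) (by simp)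
  exact ⟨a, insert a {b}, this⟩

end paths

section tok
variable {V : Type*} [DecidableEq V] {σ : Type*} [DecidableEq σ] [Fintype σ]
variable {G : SimpleGraph V} {col : Sym2 V → ℕ} {base : σ → V}

abbrev St (V σ : Type*) := σ → Finset V × Finset (Sym2 V)

def Valid (G : SimpleGraph V) (col : Sym2 V → ℕ) (base : σ → V) (st : St V σ) : Prop :=
  ∀ s, RPath G col (base s) (st s).1 (st s).2

def gain (st : St V σ) (y : Sym2 V → ℝ) : ℝ := ∑ r, ∑ e ∈ (st r).2, y e

def swp (base : σ → V) (st : St V σ) (s t : σ) : St V σ := fun r =>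
  if r = s then (insert (base s) (st t).1, insert s(base s, base t) (st t).2)
  else if r = t then (insert (base t) (st s).1, insert s(base t, base s) (st s).2)
  else st r

theorem swp_valid {st : St V σ} (hst : Valid G col base st) {s t : σ}
    (hadj : G.Adj (base s) (base t)) (h1 : base s ∉ (st t).1) (h2 : base t ∉ (st s).1)
    (h3 : ∀ e ∈ (st s).2, col e ≠ col s(base s, base t))
    (h4 : ∀ e ∈ (st t).2, col e ≠ col s(base s, base t)) :
    Valid G col base (swp base st s t) := by
  intro r
  unfold swp
  split_ifs with hr1 hr2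
  · subst hr1
    exact RPath.cons _ (hst t) hadj h1 h4
  · subst hr2
    refine RPath.cons _ (hst s) hadj.symm h2 ?_
    intro e he
    rw [Sym2.eq_swap]
    exact h3 e he
  · exact hst r

theorem swp_gain {st : St V σ} {s t : σ} (hne : s ≠ t)
    (h3 : s(base s, base t) ∉ (st s).2)
    (h4 : s(base s, base t) ∉ (st t).2) (y : Sym2 V → ℝ) :
    gain (swp base st s t) y = gain st y + 2 * y s(base s, base t) := by
  unfold gain
  rw [← Equiv.sum_comp (Equiv.swap s t)]
  have h : ∀ r, ∑ e ∈ (swp base st s t (Equiv.swap s t r)).2, y e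
      = ∑ e ∈ (st r).2, y e + ((if r = s then y s(base s, base t) else 0)
        + (if r = t then y s(base s, base t) else 0)) := by
    intro r
    by_cases hr1 : r = s
    · subst hr1
      rw [Equiv.swap_apply_left, if_pos rfl, if_neg hne]
      unfold swp
      rw [if_neg (Ne.symm hne), if_pos rfl]
      simp only
      rw [Sym2.eq_swap, Finset.sum_insert h3]
      ring
    · by_cases hr2 : r = t
      · subst hr2
        rw [Equiv.swap_apply_right, if_neg hr1, if_pos rfl]
        unfold swp
        rw [if_pos rfl]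
        simp only
        rw [Finset.sum_insert h4]
        ring
      · rw [Equiv.swap_apply_of_ne_of_ne hr1 hr2, if_neg hr1, if_neg hr2]
        unfold swp
        rw [if_neg hr1, if_neg hr2]
        ring
  rw [Finset.sum_congr rfl (fun r _ => h r), Finset.sum_add_distrib, Finset.sum_add_distrib]
  simp only [Finset.sum_ite_eq', Finset.mem_univ, if_true]
  ring

theorem swp_fst {st : St V σ} {s t : σ} : swp base st s t s
    = (insert (base s) (st t).1, insert s(base s, base t) (st t).2) := by
  unfold swp; rw [if_pos rfl]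

theorem swp_snd {st : St V σ} {s t : σ} (h : s ≠ t) : swp base st s t t
    = (insert (base t) (st s).1, insert s(base t, base s) (st s).2) := by
  unfold swp; rw [if_neg (Ne.symm h), if_pos rfl]

theorem swp_ne {st : St V σ} {s t r : σ} (h : r ≠ s) (h' : r ≠ t) : swp base st s t r = st r := by
  unfold swp; rw [if_neg h, if_neg h']

theorem composite (hprop : ∀ a b c, G.Adj a b → G.Adj a c → b ≠ c → col s(a, b) ≠ col s(a, c))
    {st : St V σ} (hst : Valid G col base st) {X U W Y : σ} {x u v y : V}
    (bX : base X = x) (bU : base U = u) (bW : base W = v) (bY : base Y = y)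
    (hxu : G.Adj x u) (huv : G.Adj u v) (hvy : G.Adj v y) (hxv : x ≠ v) (hyu : y ≠ u) (hxy : x ≠ y)
    (a1 : u ∉ (st X).1) (a2 : v ∉ (st X).1) (a3 : ∀ e ∈ (st X).2, col e ≠ col s(x, u))
    (a4 : ∀ e ∈ (st X).2, col e ≠ col s(u, v)) (a5 : x ∉ (st U).1)
    (a6 : ∀ e ∈ (st U).2, col e ≠ col s(x, u))
    (b1 : v ∉ (st Y).1) (b2 : u ∉ (st Y).1) (b3 : ∀ e ∈ (st Y).2, col e ≠ col s(y, v))
    (b4 : ∀ e ∈ (st Y).2, col e ≠ col s(v, u)) (b5 : y ∉ (st W).1)
    (b6 : ∀ e ∈ (st W).2, col e ≠ col s(y, v)) :
    ∃ st' : St V σ, Valid G col base st' ∧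
      ∀ z : Sym2 V → ℝ, gain st' z = gain st z + 2 * z s(x, u) + 2 * z s(y, v) + 2 * z s(u, v) := by
  subst bX bU bW bY
  have nXU : X ≠ U := fun h => hxu.ne (by rw [h])
  have nXW : X ≠ W := fun h => hxv (by rw [h])
  have nXY : X ≠ Y := fun h => hxy (by rw [h])
  have nUW : U ≠ W := fun h => huv.ne (by rw [h])
  have nUY : U ≠ Y := fun h => hyu (by rw [h])
  have nWY : W ≠ Y := fun h => hvy.ne (by rw [h])
  set st1 := swp base st X U with hst1
  set st2 := swp base st1 Y W with hst2
  set st3 := swp base st2 U W with hst3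
  have e1U : st1 U = (insert (base U) (st X).1, insert s(base U, base X) (st X).2) := swp_snd nXU
  have e1Y : st1 Y = st Y := swp_ne nXY.symm nUY.symm
  have e1W : st1 W = st W := swp_ne nXW.symm nUW.symm
  have e2U : st2 U = st1 U := swp_ne nUY nUW
  have e2W : st2 W = (insert (base W) (st1 Y).1, insert s(base W, base Y) (st1 Y).2) :=
    swp_snd nWY.symm
  have v1 : Valid G col base st1 := swp_valid hst hxu a5 a1 a3 a6
  have v2 : Valid G col base st2 := by
    refine swp_valid v1 hvy.symm ?_ ?_ ?_ ?_
    · rw [e1W]; exact b5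
    · rw [e1Y]; exact b1
    · rw [e1Y]; exact b3
    · rw [e1W]; exact b6
  have c1 : col s(base U, base X) ≠ col s(base U, base W) := hprop _ _ _ hxu.symm huv hxv
  have c2 : col s(base W, base Y) ≠ col s(base W, base U) := hprop _ _ _ hvy huv.symm hyu
  have f3 : ∀ e ∈ (st2 U).2, col e ≠ col s(base U, base W) := by
    rw [e2U, e1U]
    intro e he
    rcases Finset.mem_insert.mp he with rfl | he
    · exact c1
    · exact a4 e he
  have f4 : ∀ e ∈ (st2 W).2, col e ≠ col s(base U, base W) := by
    rw [e2W, e1Y]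
    intro e he
    rw [Sym2.eq_swap (a := base U)]
    rcases Finset.mem_insert.mp he with rfl | he
    · exact c2
    · exact b4 e he
  have v3 : Valid G col base st3 := by
    refine swp_valid v2 huv ?_ ?_ f3 f4
    · rw [e2W, e1Y]
      rw [Finset.mem_insert, not_or]
      exact ⟨huv.ne, b2⟩
    · rw [e2U, e1U]
      rw [Finset.mem_insert, not_or]
      exact ⟨huv.ne.symm, a2⟩
  refine ⟨st3, v3, fun z => ?_⟩
  rw [hst3, swp_gain nUW (fun h => f3 _ h rfl) (fun h => f4 _ h rfl), hst2,
    swp_gain nWY.symm (fun h => ?_) (fun h => ?_), hst1,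
    swp_gain nXU (fun h => a3 _ h rfl) (fun h => a6 _ h rfl)]
  · rw [e1Y] at h; exact b3 _ h rfl
  · rw [e1W] at h; exact b6 _ h rfl

end tok

end Pool.Agent.Helper491.RP
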