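import Mathlib
import Pool.Agent.Helper491.RPTok

set_option autoImplicit false
set_option linter.unusedSectionVars false

namespace Pool.Agent.Helper491.RP

open Finset

/-- keys of a dart `(u,v)` : the vertex `v` and the colour of `uv`. -/
def KeyMem {V : Type*} (col : Sym2 V → ℕ) (κ : V ⊕ ℕ) (p : V × V) : Prop :=
  κ = Sum.inl p.2 ∨ κ = Sum.inr (col s(p.1, p.2))

instance {V : Type*} [DecidableEq V] (col : Sym2 V → ℕ) (κ : V ⊕ ℕ) (p : V × V) :
    Decidable (KeyMem col κ p) := by unfold KeyMem; infer_instance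

section
variable {V : Type*} [DecidableEq V] [Fintype V] {σ : Type*} [DecidableEq σ] [Fintype σ]
variable (G : SimpleGraph V) [DecidableRel G.Adj] (col : Sym2 V → ℕ)

/-- darts of an edge set -/
def darts (S : Finset (Sym2 V)) : Finset (V × V) :=
  Finset.univ.filter (fun p => G.Adj p.1 p.2 ∧ s(p.1, p.2) ∈ S)

/-- obstacles -/
def obs (base : σ → V) (st : St V σ) (s : σ) : Finset (V ⊕ ℕ) :=
  ((st s).1.erase (base s)).disjSum ((st s).2.image col)

theorem obs_card {base : σ → V} {st : St V σ} (hst : Valid G col base st) (s : σ) :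
    (obs col base st s).card ≤ 2 * (st s).2.card := by
  unfold obs
  rw [Finset.card_disjSum, Finset.card_erase_of_mem (hst s).mem, (hst s).card]
  have := Finset.card_image_le (s := (st s).2) (f := col)
  omega

theorem countA (O : σ → Finset (V ⊕ ℕ)) (g : V → V → σ) (f : V → V → V ⊕ ℕ)
    (hinj : ∀ u x u' x', G.Adj u x → G.Adj u' x' → g u x = g u' x' → f u x = f u' x' →
      u = u' ∧ x = x') :
    ∑ u : V, (((G.neighborFinset u).filter (fun x => f u x ∈ O (g u x))).card : ℝ)
      ≤ ∑ s : σ, ((O s).card : ℝ) := by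
  classical
  have h : (Finset.univ.sigma (fun u => (G.neighborFinset u).filter (fun x => f u x ∈ O (g u x)))).card
      ≤ (Finset.univ.sigma O).card := by
    refine Finset.card_le_card_of_injOn (fun p : (Σ _ : V, V) => (⟨g p.1 p.2, f p.1 p.2⟩ : Σ _ : σ, V ⊕ ℕ))
      ?_ ?_
    · intro p hp
      simp only [Finset.mem_coe, Finset.mem_sigma, Finset.mem_univ, true_and, Finset.mem_filter] at hp ⊢
      exact hp.2
    · rintro ⟨u, x⟩ hp ⟨u', x'⟩ hp' heq
      simp only [Finset.mem_coe, Finset.mem_sigma, Finset.mem_univ, true_and, Finset.mem_filter,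
        SimpleGraph.mem_neighborFinset] at hp hp'
      simp only [Sigma.mk.injEq] at heq
      obtain ⟨h1, h2⟩ := heq
      obtain ⟨h3, h4⟩ := hinj u x u' x' hp.1 hp'.1 h1 (eq_of_heq h2)
      subst h3 h4
      rfl
  rw [Finset.card_sigma, Finset.card_sigma] at h
  exact_mod_cast h

/-- the data of slots -/
structure SlotData (V σ : Type*) where
  base : σ → V
  home : V → σ
  sl : V → V → σ
  base_home : ∀ v, base (home v) = v
  base_sl : ∀ x u, base (sl x u) = x

variable (D : SlotData V σ)

/-- conditions K1, K34 with constant ε, for `L`. -/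
structure KCond (L : Finset (Sym2 V)) (ε : ℝ) : Prop where
  sub : ∀ e ∈ L, e ∈ G.edgeSet
  deg : ∀ p ∈ darts G L, 8 ≤ G.degree p.1
  k1 : ∀ u, (((darts G L).filter (fun p => p.1 = u)).card : ℝ) ≤ ε * G.degree u
  k34 : ∀ s κ, ∑ p ∈ (darts G L).filter
      (fun p => (G.Adj (D.base s) p.1 ∧ D.sl (D.base s) p.1 = s) ∧ KeyMem col κ p),
        (1 / (G.degree p.1 : ℝ)) ≤ ε

def Bad (O : σ → Finset (V ⊕ ℕ)) (u v x : V) : Prop :=
  x = v ∨ (Sum.inl u ∈ O (D.sl x u)) ∨ (Sum.inr (col s(x, u)) ∈ O (D.sl x u)) ∨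
    (Sum.inl v ∈ O (D.sl x u) ∨ Sum.inr (col s(u, v)) ∈ O (D.sl x u)) ∨
    (Sum.inl x ∈ O (D.home u)) ∨ (Sum.inr (col s(x, u)) ∈ O (D.home u))

instance (O : σ → Finset (V ⊕ ℕ)) (u v x : V) : Decidable (Bad col D O u v x) := by
  unfold Bad; infer_instance

theorem darts_mono {S L : Finset (Sym2 V)} (h : S ⊆ L) : darts G S ⊆ darts G L := by
  intro p hp
  unfold darts at *
  rw [Finset.mem_filter] at *
  exact ⟨hp.1, hp.2.1, h hp.2.2⟩

theorem countB (L S : Finset (Sym2 V)) (ε : ℝ) (hK : KCond G col D L ε) (hSL : S ⊆ L)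
    (O : σ → Finset (V ⊕ ℕ)) :
    ∑ p ∈ darts G S, (((G.neighborFinset p.1).filter (fun x => (Sum.inl p.2 ∈ O (D.sl x p.1) ∨
      Sum.inr (col s(p.1, p.2)) ∈ O (D.sl x p.1)))).card : ℝ) / G.degree p.1
      ≤ ε * ∑ s : σ, ((O s).card : ℝ) := by
  classical
  have h1 : ∀ p ∈ darts G S, (((G.neighborFinset p.1).filter (fun x => (Sum.inl p.2 ∈ O (D.sl x p.1) ∨
      Sum.inr (col s(p.1, p.2)) ∈ O (D.sl x p.1)))).card : ℝ) / G.degree p.1
      ≤ ∑ s : σ, ∑ κ ∈ O s, (if (G.Adj (D.base s) p.1 ∧ D.sl (D.base s) p.1 = s) ∧ KeyMem col κ p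
          then (1 / (G.degree p.1 : ℝ)) else 0) := by
    intro p hp
    have h2 : (((G.neighborFinset p.1).filter (fun x => (Sum.inl p.2 ∈ O (D.sl x p.1) ∨
      Sum.inr (col s(p.1, p.2)) ∈ O (D.sl x p.1)))).card)
        ≤ ((Finset.univ.sigma O).filter (fun q : (Σ _ : σ, V ⊕ ℕ) =>
          (G.Adj (D.base q.1) p.1 ∧ D.sl (D.base q.1) p.1 = q.1) ∧ KeyMem col q.2 p)).card := by
      refine Finset.card_le_card_of_injOn (fun x => (⟨D.sl x p.1,
        if Sum.inl p.2 ∈ O (D.sl x p.1) then Sum.inl p.2 else Sum.inr (col s(p.1, p.2))⟩ : Σ _ : σ, V ⊕ ℕ))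
        ?_ ?_
      · intro x hx
        simp only [Finset.mem_coe, Finset.mem_filter, SimpleGraph.mem_neighborFinset] at hx
        simp only [Finset.mem_coe, Finset.mem_filter, Finset.mem_sigma, Finset.mem_univ, true_and,
          D.base_sl]
        refine ⟨?_, ⟨hx.1.symm, trivial⟩, ?_⟩
        · split_ifs with h
          · exact h
          · exact hx.2.resolve_left h
        · unfold KeyMem
          split_ifs with h
          · exact Or.inl rfl
          · exact Or.inr rfl
      · intro x _ x' _ heq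
        simp only [Sigma.mk.injEq] at heq
        have := congrArg D.base heq.1
        rwa [D.base_sl, D.base_sl] at this
    calc (((G.neighborFinset p.1).filter (fun x => (Sum.inl p.2 ∈ O (D.sl x p.1) ∨
      Sum.inr (col s(p.1, p.2)) ∈ O (D.sl x p.1)))).card : ℝ) / G.degree p.1
        ≤ (((Finset.univ.sigma O).filter (fun q : (Σ _ : σ, V ⊕ ℕ) =>
          (G.Adj (D.base q.1) p.1 ∧ D.sl (D.base q.1) p.1 = q.1) ∧ KeyMem col q.2 p)).card : ℝ)
            / G.degree p.1 := by
          refine div_le_div_of_nonneg_right ?_ (by positivity)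
          exact_mod_cast h2
      _ = ∑ q ∈ Finset.univ.sigma O, (if (G.Adj (D.base q.1) p.1 ∧ D.sl (D.base q.1) p.1 = q.1) ∧
            KeyMem col q.2 p then (1 / (G.degree p.1 : ℝ)) else 0) := by
          rw [← Finset.sum_filter, Finset.sum_const, nsmul_eq_mul]
          ring
      _ = _ := by rw [Finset.sum_sigma]
  refine (Finset.sum_le_sum h1).trans ?_
  rw [Finset.sum_comm, Finset.mul_sum]
  refine Finset.sum_le_sum (fun s _ => ?_)
  rw [Finset.sum_comm, mul_comm, ← nsmul_eq_mul]
  refine Finset.sum_le_card_nsmul _ _ _ (fun κ _ => ?_)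
  rw [← Finset.sum_filter]
  refine le_trans ?_ (hK.k34 s κ)
  refine Finset.sum_le_sum_of_subset_of_nonneg ?_ (fun i _ _ => by positivity)
  exact Finset.filter_subset_filter _ (darts_mono G hSL)

theorem countC (L S : Finset (Sym2 V)) (ε : ℝ) (hK : KCond G col D L ε) (hSL : S ⊆ L)
    (b : V → ℝ) (hb : ∀ u, 0 ≤ b u) :
    ∑ p ∈ darts G S, b p.1 / G.degree p.1 ≤ ε * ∑ u : V, b u := by
  classical
  have h1 : ∑ p ∈ darts G S, b p.1 / G.degree p.1
      = ∑ u : V, ∑ p ∈ (darts G S).filter (fun p => p.1 = u), b p.1 / G.degree p.1 := by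
    rw [Finset.sum_fiberwise]
  rw [h1, Finset.mul_sum]
  refine Finset.sum_le_sum (fun u _ => ?_)
  have h2 : ∑ p ∈ (darts G S).filter (fun p => p.1 = u), b p.1 / G.degree p.1
      = (((darts G S).filter (fun p => p.1 = u)).card : ℝ) * (b u / G.degree u) := by
    rw [← nsmul_eq_mul, ← Finset.sum_const]
    refine Finset.sum_congr rfl (fun p hp => ?_)
    rw [(Finset.mem_filter.mp hp).2]
  rw [h2]
  have h3 : (((darts G S).filter (fun p => p.1 = u)).card : ℝ) ≤ ε * G.degree u := by
    refine le_trans ?_ (hK.k1 u)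
    exact_mod_cast Finset.card_le_card (Finset.filter_subset_filter _ (darts_mono G hSL))
  by_cases h0 : (G.degree u : ℝ) = 0
  · rw [h0, mul_zero] at h3
    have h4 : (((darts G S).filter (fun p => p.1 = u)).card : ℝ) = 0 := le_antisymm h3 (by positivity)
    rw [h4, zero_mul]
    have hε : 0 ≤ ε := by
      have := hK.k34 (D.home u) (Sum.inl u)
      exact le_trans (Finset.sum_nonneg (fun i _ => by positivity)) this
    exact mul_nonneg hε (hb u)
  · have hpos : (0 : ℝ) < G.degree u := lt_of_le_of_ne (by positivity) (Ne.symm h0)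
    calc (((darts G S).filter (fun p => p.1 = u)).card : ℝ) * (b u / G.degree u)
        ≤ (ε * G.degree u) * (b u / G.degree u) :=
          mul_le_mul_of_nonneg_right h3 (div_nonneg (hb u) hpos.le)
      _ = ε * b u := by field_simp

/-- main counting lemma -/
theorem countMain (hprop : ∀ a b c, G.Adj a b → G.Adj a c → b ≠ c → col s(a, b) ≠ col s(a, c))
    (L S : Finset (Sym2 V)) (ε : ℝ) (hK : KCond G col D L ε) (hSL : S ⊆ L)
    (O : σ → Finset (V ⊕ ℕ)) :
    ∑ p ∈ darts G S, (((G.neighborFinset p.1).filter (fun x => Bad col D O p.1 p.2 x)).card : ℝ)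
      / G.degree p.1 ≤ (darts G S).card / 8 + 5 * (ε * ∑ s : σ, ((O s).card : ℝ)) := by
  classical
  set M := ∑ s : σ, ((O s).card : ℝ) with hM
  -- the four functions
  have hA1 := countA G O (fun u x => D.sl x u) (fun u x => Sum.inl u) (by
    intro u x u' x' _ _ h1 h2
    have h3 := congrArg D.base h1
    simp only [D.base_sl] at h3
    exact ⟨Sum.inl_injective h2, h3⟩)
  have hA2 := countA G O (fun u x => D.sl x u) (fun u x => Sum.inr (col s(x, u))) (by
    intro u x u' x' ha ha' h1 h2
    have h3 := congrArg D.base h1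
    simp only [D.base_sl] at h3
    subst h3
    refine ⟨?_, rfl⟩
    by_contra hne
    exact hprop x u u' ha.symm ha'.symm hne (Sum.inr_injective h2))
  have hA3 := countA G O (fun u x => D.home u) (fun u x => Sum.inl x) (by
    intro u x u' x' _ _ h1 h2
    have h3 := congrArg D.base h1
    simp only [D.base_home] at h3
    exact ⟨h3, Sum.inl_injective h2⟩)
  have hA4 := countA G O (fun u x => D.home u) (fun u x => Sum.inr (col s(x, u))) (by
    intro u x u' x' ha ha' h1 h2
    have h3 := congrArg D.base h1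
    simp only [D.base_home] at h3
    subst h3
    refine ⟨rfl, ?_⟩
    by_contra hne
    refine hprop u x x' ha ha' hne ?_
    rw [Sym2.eq_swap, Sym2.eq_swap (a := u)]
    exact Sum.inr_injective h2)
  have hε : 0 ≤ ε ∨ IsEmpty V := by
    rcases isEmpty_or_nonempty V with h | ⟨⟨u⟩⟩
    · exact Or.inr h
    · left
      have := hK.k34 (D.home u) (Sum.inl u)
      exact le_trans (Finset.sum_nonneg (fun i _ => by positivity)) this
  rcases hε with hε | hemp
  swap
  · have h0 : darts G S = ∅ := by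
      rw [Finset.eq_empty_iff_forall_notMem]
      intro p _
      exact hemp.elim p.1
    have hs : IsEmpty σ := ⟨fun s => hemp.elim (D.base s)⟩
    rw [h0]
    simp [hM]
  have hC1 := (countC G col D L S ε hK hSL _ (fun u => by positivity)).trans
    (mul_le_mul_of_nonneg_left hA1 hε)
  have hC2 := (countC G col D L S ε hK hSL _ (fun u => by positivity)).trans
    (mul_le_mul_of_nonneg_left hA2 hε)
  have hC3 := (countC G col D L S ε hK hSL _ (fun u => by positivity)).trans
    (mul_le_mul_of_nonneg_left hA3 hε)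
  have hC4 := (countC G col D L S ε hK hSL _ (fun u => by positivity)).trans
    (mul_le_mul_of_nonneg_left hA4 hε)
  have hB := countB G col D L S ε hK hSL O
  have hD : ∑ p ∈ darts G S, (((G.neighborFinset p.1).filter (fun x => x = p.2)).card : ℝ)
      / G.degree p.1 ≤ (darts G S).card / 8 := by
    rw [div_eq_mul_inv, ← nsmul_eq_mul]
    refine Finset.sum_le_card_nsmul _ _ _ (fun p hp => ?_)
    have h8 : (8 : ℝ) ≤ G.degree p.1 := by exact_mod_cast hK.deg p (darts_mono G hSL hp)
    have h1 : (((G.neighborFinset p.1).filter (fun x => x = p.2)).card : ℝ) ≤ 1 := by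
      have : ((G.neighborFinset p.1).filter (fun x => x = p.2)).card ≤ ({p.2} : Finset V).card := by
        refine Finset.card_le_card ?_
        intro x hx
        simpa using (Finset.mem_filter.mp hx).2
      rw [Finset.card_singleton] at this
      exact_mod_cast this
    rw [div_le_iff₀ (by linarith)]
    linarith
  have hsum : ∀ p ∈ darts G S,
      (((G.neighborFinset p.1).filter (fun x => Bad col D O p.1 p.2 x)).card : ℝ) / G.degree p.1
      ≤ (((G.neighborFinset p.1).filter (fun x => x = p.2)).card : ℝ) / G.degree p.1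
      + (((G.neighborFinset p.1).filter (fun x => Sum.inl p.1 ∈ O (D.sl x p.1))).card : ℝ) / G.degree p.1
      + (((G.neighborFinset p.1).filter (fun x => Sum.inr (col s(x, p.1)) ∈ O (D.sl x p.1))).card : ℝ) / G.degree p.1
      + (((G.neighborFinset p.1).filter (fun x => (Sum.inl p.2 ∈ O (D.sl x p.1) ∨
      Sum.inr (col s(p.1, p.2)) ∈ O (D.sl x p.1)))).card : ℝ) / G.degree p.1
      + (((G.neighborFinset p.1).filter (fun x => Sum.inl x ∈ O (D.home p.1))).card : ℝ) / G.degree p.1
      + (((G.neighborFinset p.1).filter (fun x => Sum.inr (col s(x, p.1)) ∈ O (D.home p.1))).card : ℝ) / G.degree p.1 := by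
    intro p _
    rw [← add_div, ← add_div, ← add_div, ← add_div, ← add_div]
    refine div_le_div_of_nonneg_right ?_ (by positivity)
    norm_cast
    have hsub : (G.neighborFinset p.1).filter (fun x => Bad col D O p.1 p.2 x) ⊆
        ((((((G.neighborFinset p.1).filter (fun x => x = p.2))
        ∪ ((G.neighborFinset p.1).filter (fun x => Sum.inl p.1 ∈ O (D.sl x p.1))))
        ∪ ((G.neighborFinset p.1).filter (fun x => Sum.inr (col s(x, p.1)) ∈ O (D.sl x p.1))))
        ∪ ((G.neighborFinset p.1).filter (fun x => (Sum.inl p.2 ∈ O (D.sl x p.1) ∨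
          Sum.inr (col s(p.1, p.2)) ∈ O (D.sl x p.1)))))
        ∪ ((G.neighborFinset p.1).filter (fun x => Sum.inl x ∈ O (D.home p.1))))
        ∪ ((G.neighborFinset p.1).filter (fun x => Sum.inr (col s(x, p.1)) ∈ O (D.home p.1))) := by
      intro x hx
      rw [Finset.mem_filter] at hx
      simp only [Finset.mem_filter, Finset.mem_union]
      obtain ⟨hx0, hb⟩ := hx
      rcases hb with h | h | h | h | h | h
      · exact Or.inl (Or.inl (Or.inl (Or.inl (Or.inl ⟨hx0, h⟩))))
      · exact Or.inl (Or.inl (Or.inl (Or.inl (Or.inr ⟨hx0, h⟩))))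
      · exact Or.inl (Or.inl (Or.inl (Or.inr ⟨hx0, h⟩)))
      · exact Or.inl (Or.inl (Or.inr ⟨hx0, h⟩))
      · exact Or.inl (Or.inr ⟨hx0, h⟩)
      · exact Or.inr ⟨hx0, h⟩
    refine (Finset.card_le_card hsub).trans ?_
    refine (Finset.card_union_le _ _).trans (Nat.add_le_add_right ?_ _)
    refine (Finset.card_union_le _ _).trans (Nat.add_le_add_right ?_ _)
    refine (Finset.card_union_le _ _).trans (Nat.add_le_add_right ?_ _)
    refine (Finset.card_union_le _ _).trans (Nat.add_le_add_right ?_ _)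
    exact Finset.card_union_le _ _
  refine (Finset.sum_le_sum hsum).trans ?_
  simp only [Finset.sum_add_distrib]
  linarith

end

end Pool.Agent.Helper491.RP
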