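import Mathlib

set_option autoImplicit false

namespace Pool.Agent.Helper491.RP

open Finset

/-- fractional property of a family `R` of finite sets relative to `L` with constant `p`. -/
def Frac {E : Type*} [DecidableEq E] (R : Set (Finset E)) (L : Finset E) (p : ℝ) : Prop :=
  ∀ y : E → ℝ, (∀ e, 0 ≤ y e) → ∃ P ∈ R, p * ∑ e ∈ L, y e ≤ ∑ e ∈ P ∩ L, y e

theorem greedy {ι E : Type*} [DecidableEq E] [DecidableEq ι] (R : Set (Finset E)) (L : Finset E) (p : ℝ)
    (hF : Frac R L p) (s : ι → Finset E) (N : ℕ) :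
    ∀ (I : Finset ι) (c : ι → ℝ), (∀ i, 0 ≤ c i) → (∀ i ∈ I, s i ⊆ L) →
      (∀ i ∈ I, ∀ P ∈ R, (P ∩ s i).card ≤ 2) →
      ∃ l : List (Finset E), l.length = N ∧ (∀ P ∈ l, P ∈ R) ∧
        ∑ i ∈ I.filter (fun i => ∀ P ∈ l, Disjoint P (s i)), c i
          ≤ ∑ i ∈ I, c i * Real.exp (-(p * N * (s i).card / 2)) := by
  induction N with
  | zero =>
    intro I c hc hs h2
    refine ⟨[], rfl, by simp, ?_⟩
    simp
  | succ N ih =>
    intro I c hc hs h2
    set c' : ι → ℝ := fun i => c i * Real.exp (-(p * N * (s i).card / 2)) with hc'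
    have hc'0 : ∀ i, 0 ≤ c' i := fun i => mul_nonneg (hc i) (Real.exp_pos _).le
    obtain ⟨P, hPR, hP⟩ := hF (fun e => ∑ i ∈ I, if e ∈ s i then c' i else 0)
      (fun e => Finset.sum_nonneg (fun i _ => by split_ifs; exacts [hc'0 i, le_rfl]))
    have h3 : ∑ e ∈ L, ∑ i ∈ I, (if e ∈ s i then c' i else 0) = ∑ i ∈ I, c' i * (s i).card := by
      rw [Finset.sum_comm]
      refine Finset.sum_congr rfl (fun i hi => ?_)
      rw [← Finset.sum_filter]
      rw [Finset.sum_const, nsmul_eq_mul, mul_comm]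
      congr 2
      congr 1
      ext e
      simp only [Finset.mem_filter]
      exact ⟨fun h => h.2, fun h => ⟨hs i hi h, h⟩⟩
    have h4 : ∑ e ∈ P ∩ L, ∑ i ∈ I, (if e ∈ s i then c' i else 0)
        ≤ ∑ i ∈ I, (if Disjoint P (s i) then 0 else 2 * c' i) := by
      rw [Finset.sum_comm]
      refine Finset.sum_le_sum (fun i hi => ?_)
      rw [← Finset.sum_filter, Finset.sum_const, nsmul_eq_mul]
      have h5 : (P ∩ L).filter (fun e => e ∈ s i) ⊆ P ∩ s i := by
        intro e he
        simp only [Finset.mem_filter, Finset.mem_inter] at he ⊢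
        exact ⟨he.1.1, he.2⟩
      split_ifs with hd
      · have : (P ∩ L).filter (fun e => e ∈ s i) = ∅ := by
          rw [← Finset.subset_empty]
          refine h5.trans ?_
          rw [Finset.disjoint_iff_inter_eq_empty.mp hd]
        rw [this]; simp
      · have h6 : (((P ∩ L).filter (fun e => e ∈ s i)).card : ℝ) ≤ 2 := by
          exact_mod_cast (Finset.card_le_card h5).trans (h2 i hi P hPR)
        exact mul_le_mul_of_nonneg_right h6 (hc'0 i)
    rw [h3] at hP
    have h5 := hP.trans h4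
    obtain ⟨l, hl1, hl2, hl3⟩ := ih (I.filter (fun i => Disjoint P (s i))) c hc
      (fun i hi => hs i (Finset.mem_filter.mp hi).1) (fun i hi => h2 i (Finset.mem_filter.mp hi).1)
    refine ⟨P :: l, by simp [hl1], ?_, ?_⟩
    · intro Q hQ
      rcases List.mem_cons.mp hQ with rfl | h
      · exact hPR
      · exact hl2 Q h
    · have h6 : (I.filter (fun i => ∀ Q ∈ P :: l, Disjoint Q (s i)))
          = (I.filter (fun i => Disjoint P (s i))).filter (fun i => ∀ Q ∈ l, Disjoint Q (s i)) := by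
        ext i
        simp only [Finset.mem_filter, List.mem_cons, forall_eq_or_imp]
        tauto
      rw [h6]
      refine hl3.trans ?_
      have h7 : ∑ i ∈ I.filter (fun i => Disjoint P (s i)), c' i
          = ∑ i ∈ I, c' i - (∑ i ∈ I, (if Disjoint P (s i) then 0 else 2 * c' i)) / 2 := by
        rw [Finset.sum_filter, Finset.sum_div, ← Finset.sum_sub_distrib]
        refine Finset.sum_congr rfl (fun i _ => ?_)
        split_ifs <;> ring
      have h8 : ∑ i ∈ I, c' i * Real.exp (-(p * (s i).card / 2))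
          = ∑ i ∈ I, c i * Real.exp (-(p * (N + 1 : ℕ) * (s i).card / 2)) := by
        refine Finset.sum_congr rfl (fun i _ => ?_)
        rw [hc']
        simp only
        rw [mul_assoc, ← Real.exp_add]
        congr 2
        push_cast; ring
      have h9 : ∑ i ∈ I, c' i * (1 - p * (s i).card / 2)
          ≤ ∑ i ∈ I, c' i * Real.exp (-(p * (s i).card / 2)) := by
        refine Finset.sum_le_sum (fun i _ => ?_)
        refine mul_le_mul_of_nonneg_left ?_ (hc'0 i)
        have := Real.add_one_le_exp (-(p * (s i).card / 2))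
        linarith
      have h10 : ∑ i ∈ I, c' i * (1 - p * (s i).card / 2)
          = ∑ i ∈ I, c' i - (p * ∑ i ∈ I, c' i * (s i).card) / 2 := by
        rw [Finset.mul_sum, Finset.sum_div, ← Finset.sum_sub_distrib]
        refine Finset.sum_congr rfl (fun i _ => ?_)
        ring
      calc ∑ i ∈ I.filter (fun i => Disjoint P (s i)), c' i
          = ∑ i ∈ I, c' i - (∑ i ∈ I, (if Disjoint P (s i) then 0 else 2 * c' i)) / 2 := h7
        _ ≤ ∑ i ∈ I, c' i - (p * ∑ i ∈ I, c' i * (s i).card) / 2 := by linarith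
        _ = ∑ i ∈ I, c' i * (1 - p * (s i).card / 2) := h10.symm
        _ ≤ _ := h9
        _ = _ := h8

/-- Abstract test lemma. -/
theorem greedyTests {τ E : Type*} [DecidableEq E] [DecidableEq τ] (R : Set (Finset E)) (L : Finset E)
    (p : ℝ) (hF : Frac R L p) (T : Finset τ) (A : τ → Finset E)
    (h2 : ∀ t ∈ T, ∀ P ∈ R, (P ∩ A t).card ≤ 2) (q : τ → ℕ) (N : ℕ) :
    ∃ l : List (Finset E), l.length = N ∧ (∀ P ∈ l, P ∈ R) ∧
      ∑ t ∈ T.filter (fun t => q t ≤ ((L.filter (fun e => ∀ P ∈ l, e ∉ P)) ∩ A t).card),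
          ((L ∩ A t).card : ℝ)
        ≤ ∑ t ∈ T, ((L ∩ A t).card : ℝ) * (2 ^ (L ∩ A t).card * Real.exp (-(p * N * q t / 2))) := by
  classical
  obtain ⟨l, hl1, hl2, hl3⟩ := greedy (ι := Σ _ : τ, Finset E) R L p hF (fun i => i.2) N
    (T.sigma (fun t => (L ∩ A t).powersetCard (q t))) (fun i => ((L ∩ A i.1).card : ℝ))
    (fun i => by positivity)
    (fun i hi => by
      rw [Finset.mem_sigma, Finset.mem_powersetCard] at hi
      exact hi.2.1.trans Finset.inter_subset_left)
    (fun i hi P hP => by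
      rw [Finset.mem_sigma, Finset.mem_powersetCard] at hi
      refine (Finset.card_le_card ?_).trans (h2 i.1 hi.1 P hP)
      exact Finset.inter_subset_inter_left (hi.2.1.trans Finset.inter_subset_right))
  refine ⟨l, hl1, hl2, ?_⟩
  set Rm := L.filter (fun e => ∀ P ∈ l, e ∉ P) with hRm
  -- lower bound
  have h5 : ∑ t ∈ T.filter (fun t => q t ≤ (Rm ∩ A t).card), ((L ∩ A t).card : ℝ)
      ≤ ∑ i ∈ (T.sigma (fun t => (L ∩ A t).powersetCard (q t))).filter
          (fun i => ∀ P ∈ l, Disjoint P i.2), ((L ∩ A i.1).card : ℝ) := by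
    have hch : ∀ t : τ, q t ≤ (Rm ∩ A t).card → ∃ Q : Finset E, Q ⊆ Rm ∩ A t ∧ Q.card = q t :=
      fun t ht => Finset.exists_subset_card_eq ht
    choose! Q hQ1 hQ2 using hch
    rw [← Finset.sum_image (s := T.filter (fun t => q t ≤ (Rm ∩ A t).card))
      (g := fun t => (⟨t, Q t⟩ : Σ _ : τ, Finset E))
      (f := fun i : (Σ _ : τ, Finset E) => ((L ∩ A i.1).card : ℝ))]
    · refine Finset.sum_le_sum_of_subset_of_nonneg ?_ (fun i _ _ => by positivity)
      intro i hi
      rw [Finset.mem_image] at hi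
      obtain ⟨t, ht, rfl⟩ := hi
      rw [Finset.mem_filter] at ht
      rw [Finset.mem_filter, Finset.mem_sigma, Finset.mem_powersetCard]
      refine ⟨⟨ht.1, ?_, hQ2 t ht.2⟩, ?_⟩
      · refine (hQ1 t ht.2).trans (Finset.inter_subset_inter_right ?_)
        exact Finset.filter_subset _ _
      · intro P hP
        rw [Finset.disjoint_left]
        intro e heP heQ
        have := hQ1 t ht.2 heQ
        rw [Finset.mem_inter, hRm, Finset.mem_filter] at this
        exact this.1.2 P hP heP
    · intro t _ t' _ h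
      simpa using congrArg Sigma.fst h
  refine h5.trans (hl3.trans ?_)
  rw [Finset.sum_sigma]
  refine Finset.sum_le_sum (fun t _ => ?_)
  simp only
  have h6 : ∑ Q ∈ (L ∩ A t).powersetCard (q t), ((L ∩ A t).card : ℝ) * Real.exp (-(p * N * Q.card / 2))
      = ((L ∩ A t).powersetCard (q t)).card * (((L ∩ A t).card : ℝ) * Real.exp (-(p * N * q t / 2))) := by
    rw [← nsmul_eq_mul, ← Finset.sum_const]
    refine Finset.sum_congr rfl (fun Q hQ => ?_)
    rw [(Finset.mem_powersetCard.mp hQ).2]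
  rw [h6, Finset.card_powersetCard]
  have h7 : (((L ∩ A t).card.choose (q t) : ℕ) : ℝ) ≤ 2 ^ (L ∩ A t).card := by
    exact_mod_cast Nat.choose_le_two_pow _ _
  calc (((L ∩ A t).card.choose (q t) : ℕ) : ℝ) * (((L ∩ A t).card : ℝ) * Real.exp (-(p * N * q t / 2)))
      ≤ 2 ^ (L ∩ A t).card * (((L ∩ A t).card : ℝ) * Real.exp (-(p * N * q t / 2))) :=
        mul_le_mul_of_nonneg_right h7 (by positivity)
    _ = _ := by ring

end Pool.Agent.Helper491.RP
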