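import Mathlib
import Pool.Agent.Helper491.RPCount
import Pool.Agent.Helper491.RPGreedy

set_option autoImplicit false
set_option linter.unusedSectionVars false

namespace Pool.Agent.Helper491.RP

open Finset

section
variable {V : Type*} [DecidableEq V] [Fintype V] {σ : Type*} [DecidableEq σ] [Fintype σ]
variable (G : SimpleGraph V) [DecidableRel G.Adj] (col : Sym2 V → ℕ)
variable (D : SlotData V σ)

theorem card_le_darts (S : Finset (Sym2 V)) (hS : ∀ e ∈ S, e ∈ G.edgeSet) :
    S.card ≤ (darts G S).card := by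
  refine Finset.card_le_card_of_surjOn (fun p => s(p.1, p.2)) ?_
  intro e he
  have h1 := hS e he
  induction e using Sym2.ind with
  | _ u v =>
    refine ⟨(u, v), ?_, rfl⟩
    unfold darts
    simp only [Finset.coe_filter, Finset.mem_univ, true_and, Set.mem_ofPred_eq]
    exact ⟨h1, he⟩

theorem sum_swap_darts (S : Finset (Sym2 V)) (f : V × V → ℝ) :
    ∑ p ∈ darts G S, f (p.2, p.1) = ∑ p ∈ darts G S, f p := by
  refine Finset.sum_nbij' (fun p => (p.2, p.1)) (fun p => (p.2, p.1)) ?_ ?_ ?_ ?_ ?_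
  · intro p hp
    unfold darts at *
    rw [Finset.mem_filter] at *
    refine ⟨Finset.mem_univ _, hp.2.1.symm, ?_⟩
    rw [Sym2.eq_swap]; exact hp.2.2
  · intro p hp
    unfold darts at *
    rw [Finset.mem_filter] at *
    refine ⟨Finset.mem_univ _, hp.2.1.symm, ?_⟩
    rw [Sym2.eq_swap]; exact hp.2.2
  · intro p _; rfl
  · intro p _; rfl
  · intro p _; rfl

theorem move (hprop : ∀ a b c, G.Adj a b → G.Adj a c → b ≠ c → col s(a, b) ≠ col s(a, c))
    (L S : Finset (Sym2 V)) (ε : ℝ) (hK : KCond G col D L ε) (hSL : S ⊆ L)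
    {st : St V σ} (hst : Valid G col D.base st) (k : ℕ)
    (hT : gain st (fun _ => 1) = 6 * k) (hk : 480 * ε * k < S.card) :
    ∃ e ∈ S, ∃ st' : St V σ, Valid G col D.base st' ∧ gain st' (fun _ => 1) = 6 * (k + 1 : ℕ) ∧
      ∀ z : Sym2 V → ℝ, (∀ e, 0 ≤ z e) → gain st z + 2 * z e ≤ gain st' z := by
  classical
  set O := obs col D.base st with hO
  have hcm := countMain G col D hprop L S ε hK hSL O
  have hSd := card_le_darts G S (fun e he => hK.sub e (hSL he))
  have hSd' : (S.card : ℝ) ≤ (darts G S).card := by exact_mod_cast hSd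
  have hOs : ∑ s : σ, ((O s).card : ℝ) ≤ 12 * k := by
    have h1 : ∑ s : σ, ((O s).card : ℝ) ≤ ∑ s : σ, 2 * (((st s).2.card : ℕ) : ℝ) := by
      refine Finset.sum_le_sum (fun s _ => ?_)
      exact_mod_cast obs_card G col hst s
    have h2 : ∑ s : σ, 2 * (((st s).2.card : ℕ) : ℝ) = 2 * gain st (fun _ => 1) := by
      unfold gain
      rw [Finset.mul_sum]
      refine Finset.sum_congr rfl (fun s _ => ?_)
      simp
    rw [h2, hT] at h1
    linarith
  have hSpos : 0 < S.card ∨ S.card = 0 := by omega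
  -- nonneg of ε
  have hne : ∃ v : V, True := by
    by_contra hno
    push Not at hno
    have hV : IsEmpty V := ⟨fun v => (hno v).elim⟩
    have : S = ∅ := by
      rw [Finset.eq_empty_iff_forall_notMem]
      intro e _
      induction e using Sym2.ind with
      | _ u v => exact hV.elim u
    have hσ : IsEmpty σ := ⟨fun s => hV.elim (D.base s)⟩
    rw [this] at hk
    have hk0 : (k : ℝ) = 0 := by
      have : gain st (fun _ => 1) = 0 := by unfold gain; simp
      rw [this] at hT
      linarith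
    rw [hk0] at hk
    simp at hk
  obtain ⟨v0, _⟩ := hne
  have hε : 0 ≤ ε := by
    have := hK.k34 (D.home v0) (Sum.inl v0)
    exact le_trans (Finset.sum_nonneg (fun i _ => by positivity)) this
  have hlt : ∑ p ∈ darts G S, (((G.neighborFinset p.1).filter (fun x => Bad col D O p.1 p.2 x)).card : ℝ)
      / G.degree p.1 < (darts G S).card / 4 := by
    have h1 : ε * ∑ s : σ, ((O s).card : ℝ) ≤ ε * (12 * k) := mul_le_mul_of_nonneg_left hOs hε
    linarith
  set β : V × V → ℝ := fun p => (((G.neighborFinset p.1).filter (fun x => Bad col D O p.1 p.2 x)).card : ℝ)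
      / G.degree p.1 with hβ
  have hex : ∃ p ∈ darts G S, β p + β (p.2, p.1) < 1 / 2 := by
    by_contra hno
    push Not at hno
    have h1 : ∑ p ∈ darts G S, (1 / 2 : ℝ) ≤ ∑ p ∈ darts G S, (β p + β (p.2, p.1)) :=
      Finset.sum_le_sum hno
    rw [Finset.sum_add_distrib, sum_swap_darts G S β, Finset.sum_const, nsmul_eq_mul] at h1
    linarith
  obtain ⟨⟨u, v⟩, hp, hβp⟩ := hex
  have hp' : (v, u) ∈ darts G S := by
    unfold darts at *
    rw [Finset.mem_filter] at *
    refine ⟨Finset.mem_univ _, hp.2.1.symm, ?_⟩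
    rw [Sym2.eq_swap]; exact hp.2.2
  have hgood : ∀ a b : V, (a, b) ∈ darts G S → β (a, b) < 1 / 2 →
      1 < ((G.neighborFinset a).filter (fun x => ¬ Bad col D O a b x)).card := by
    intro a b hab hb
    have h8 : (8 : ℕ) ≤ G.degree a := hK.deg (a, b) (darts_mono G hSL hab)
    have h8' : (8 : ℝ) ≤ G.degree a := by exact_mod_cast h8
    simp only [hβ] at hb
    rw [div_lt_iff₀ (by linarith)] at hb
    have h9 := Finset.card_filter_add_card_filter_not (s := G.neighborFinset a)
      (fun x => Bad col D O a b x)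
    rw [G.card_neighborFinset_eq_degree] at h9
    have h10 : (2 * ((G.neighborFinset a).filter (fun x => Bad col D O a b x)).card : ℝ) < G.degree a := by
      linarith
    have h11 : 2 * ((G.neighborFinset a).filter (fun x => Bad col D O a b x)).card < G.degree a := by
      exact_mod_cast h10
    omega
  have hβ0 : ∀ p, 0 ≤ β p := fun p => by simp only [hβ]; positivity
  have hg1 := hgood u v hp (by have := hβ0 (v, u); simp only at hβp; linarith)
  have hg2 := hgood v u hp' (by have := hβ0 (u, v); simp only at hβp; linarith)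
  obtain ⟨x, hx⟩ := Finset.card_pos.mp (lt_trans Nat.zero_lt_one hg1)
  obtain ⟨y, hy, hyx⟩ := Finset.exists_mem_ne hg2 x
  rw [Finset.mem_filter, SimpleGraph.mem_neighborFinset] at hx hy
  obtain ⟨hux, hbx⟩ := hx
  obtain ⟨hvy, hby⟩ := hy
  have huv : G.Adj u v := by
    unfold darts at hp
    rw [Finset.mem_filter] at hp
    exact hp.2.1
  have huvS : s(u, v) ∈ S := by
    unfold darts at hp
    rw [Finset.mem_filter] at hp
    exact hp.2.2
  unfold Bad at hbx hby
  push Not at hbx hby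
  obtain ⟨x1, x2, x3, ⟨x4, x5⟩, x6, x7⟩ := hbx
  obtain ⟨y1, y2, y3, ⟨y4, y5⟩, y6, y7⟩ := hby
  have key1 : ∀ (s : σ) (w : V), w ≠ D.base s → Sum.inl w ∉ O s → w ∉ (st s).1 := by
    intro s w hw hn hm
    apply hn
    rw [hO]
    unfold obs
    rw [Finset.inl_mem_disjSum, Finset.mem_erase]
    exact ⟨hw, hm⟩
  have key2 : ∀ (s : σ) (c : ℕ), Sum.inr c ∉ O s → ∀ e ∈ (st s).2, col e ≠ c := by
    intro s c hn e he hc
    apply hn
    rw [hO]
    unfold obs
    rw [Finset.inr_mem_disjSum, Finset.mem_image]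
    exact ⟨e, he, hc⟩
  obtain ⟨st', hv', hg'⟩ := composite hprop hst (D.base_sl x u) (D.base_home u) (D.base_home v)
    (D.base_sl y v) hux.symm huv hvy x1 y1 (Ne.symm hyx)
    (key1 _ _ (by rw [D.base_sl]; exact hux.ne) x2)
    (key1 _ _ (by rw [D.base_sl]; exact Ne.symm x1) x4)
    (key2 _ _ x3) (key2 _ _ x5)
    (key1 _ _ (by rw [D.base_home]; exact hux.ne.symm) x6) (key2 _ _ x7)
    (key1 _ _ (by rw [D.base_sl]; exact hvy.ne) y2)
    (key1 _ _ (by rw [D.base_sl]; exact Ne.symm y1) y4)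
    (key2 _ _ y3) (key2 _ _ y5)
    (key1 _ _ (by rw [D.base_home]; exact hvy.ne.symm) y6) (key2 _ _ y7)
  refine ⟨s(u, v), huvS, st', hv', ?_, ?_⟩
  · rw [hg', hT]; push_cast; ring
  · intro z hz
    rw [hg']
    have := hz s(x, u)
    have := hz s(y, v)
    linarith

theorem extend (hprop : ∀ a b c, G.Adj a b → G.Adj a c → b ≠ c → col s(a, b) ≠ col s(a, c))
    (L S : Finset (Sym2 V)) (ε : ℝ) (hK : KCond G col D L ε) (hSL : S ⊆ L)
    (y : Sym2 V → ℝ) (hy : ∀ e, 0 ≤ y e) (m : ℝ) (hm : ∀ e ∈ S, m ≤ y e)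
    {st : St V σ} (hst : Valid G col D.base st) (k : ℕ)
    (hT : gain st (fun _ => 1) = 6 * k) (K : ℕ) (hkK : k ≤ K) :
    (∀ j : ℕ, k ≤ j → j < K → 480 * ε * j < S.card) →
    ∃ st' : St V σ, Valid G col D.base st' ∧ gain st' (fun _ => 1) = 6 * K ∧
      gain st y + 2 * ((K : ℝ) - k) * m ≤ gain st' y := by
  induction K, hkK using Nat.le_induction with
  | base =>
    intro _
    exact ⟨st, hst, hT, by simp⟩
  | succ K hkK ih =>
    intro hj
    obtain ⟨st1, h1, h2, h3⟩ := ih (fun j hkj hjK => hj j hkj (by omega))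
    obtain ⟨e, heS, st', h4, h5, h6⟩ := move G col D hprop L S ε hK hSL h1 K h2
      (hj K hkK (by omega))
    refine ⟨st', h4, h5, ?_⟩
    have := h6 y hy
    have := hm e heS
    push_cast
    nlinarith

theorem fracAux (hprop : ∀ a b c, G.Adj a b → G.Adj a c → b ≠ c → col s(a, b) ≠ col s(a, c))
    (L : Finset (Sym2 V)) (ε : ℝ) (hε : 0 < ε) (hK : KCond G col D L ε)
    (y : Sym2 V → ℝ) (hy : ∀ e, 0 ≤ y e) (S : Finset (Sym2 V)) : S ⊆ L →
    ∃ k : ℕ, ∃ st : St V σ, Valid G col D.base st ∧ gain st (fun _ => 1) = 6 * k ∧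
      (S.card : ℝ) ≤ 480 * ε * k ∧ ∀ m : ℝ, (∀ e ∈ S, m ≤ y e) →
        m * (k - S.card / (480 * ε)) ≤ gain st y / 2 - (∑ e ∈ S, y e) / (480 * ε) := by
  refine Finset.induction_on_min_value (f := y) (motive := fun S => S ⊆ L →
    ∃ k : ℕ, ∃ st : St V σ, Valid G col D.base st ∧ gain st (fun _ => 1) = 6 * k ∧
      (S.card : ℝ) ≤ 480 * ε * k ∧ ∀ m : ℝ, (∀ e ∈ S, m ≤ y e) →
        m * (k - S.card / (480 * ε)) ≤ gain st y / 2 - (∑ e ∈ S, y e) / (480 * ε)) S ?_ ?_
  · intro _
    refine ⟨0, fun s => ({D.base s}, ∅), fun s => RPath.nil _, ?_, ?_, ?_⟩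
    · simp [gain]
    · simp
    · intro m _
      simp [gain]
  · intro a S haS hmin ih hSL
    obtain ⟨k, st, h1, h2, h3, h4⟩ := ih ((Finset.subset_insert _ _).trans hSL)
    have hθ : 0 < 480 * ε := by positivity
    set S' := insert a S with hS'
    have hcard : (S'.card : ℝ) = S.card + 1 := by
      rw [hS', Finset.card_insert_of_notMem haS]; push_cast; ring
    set K := max k ⌈(S'.card : ℝ) / (480 * ε)⌉₊ with hKdef
    have hmin' : ∀ e ∈ S', y a ≤ y e := by
      intro e he
      rcases Finset.mem_insert.mp he with rfl | h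
      · exact le_rfl
      · exact hmin e h
    have hj : ∀ j : ℕ, k ≤ j → j < K → 480 * ε * j < S'.card := by
      intro j hkj hj
      rcases lt_max_iff.mp hj with h | h
      · omega
      · rw [Nat.lt_ceil, lt_div_iff₀ hθ] at h
        linarith
    obtain ⟨st', g1, g2, g3⟩ := extend G col D hprop L S' ε hK hSL y hy (y a) hmin' h1 k h2 K
      (le_max_left _ _) hj
    have hKS : (S'.card : ℝ) / (480 * ε) ≤ K := by
      refine (Nat.le_ceil _).trans ?_
      exact_mod_cast le_max_right _ _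
    refine ⟨K, st', g1, g2, ?_, ?_⟩
    · rw [div_le_iff₀ hθ] at hKS
      linarith
    · intro m hm
      have h5 := h4 (y a) hmin
      have h6 : m ≤ y a := hm a (Finset.mem_insert_self _ _)
      have h7 : m * (K - S'.card / (480 * ε)) ≤ y a * (K - S'.card / (480 * ε)) :=
        mul_le_mul_of_nonneg_right h6 (by linarith)
      refine h7.trans ?_
      rw [hS', Finset.sum_insert haS, ← hS', hcard]
      have h8 : y a * (K - (S.card + 1) / (480 * ε)) = y a * (k - S.card / (480 * ε))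
          + (K - k) * y a - y a / (480 * ε) := by ring
      rw [h8, add_div]
      linarith

/-- The fractional theorem. -/
theorem frac [Nonempty V]
    (hprop : ∀ a b c, G.Adj a b → G.Adj a c → b ≠ c → col s(a, b) ≠ col s(a, c))
    (L : Finset (Sym2 V)) (ε : ℝ) (hε : 0 < ε) (hK : KCond G col D L ε) :
    Frac (RSet G col) L (1 / (240 * ε * Fintype.card σ)) := by
  intro y hy
  set y' : Sym2 V → ℝ := fun e => if e ∈ L then y e else 0 with hy'
  have hy'0 : ∀ e, 0 ≤ y' e := fun e => by simp only [hy']; split_ifs; exacts [hy e, le_rfl]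
  obtain ⟨k, st, h1, h2, h3, h4⟩ := fracAux G col D hprop L ε hε hK y' hy'0 L (Finset.Subset.refl _)
  have h5 := h4 0 (fun e _ => hy'0 e)
  rw [zero_mul] at h5
  have h6 : ∑ e ∈ L, y' e = ∑ e ∈ L, y e := by
    refine Finset.sum_congr rfl (fun e he => ?_)
    simp only [hy', if_pos he]
  rw [h6] at h5
  obtain ⟨v0⟩ := ‹Nonempty V›
  have hσ : 0 < Fintype.card σ := Fintype.card_pos_iff.mpr ⟨D.home v0⟩
  have hσ' : (0 : ℝ) < Fintype.card σ := by exact_mod_cast hσ
  have hex : ∃ s : σ, gain st y' / Fintype.card σ ≤ ∑ e ∈ (st s).2, y' e := by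
    by_contra hno
    push Not at hno
    have : gain st y' < ∑ s : σ, gain st y' / Fintype.card σ := by
      unfold gain at hno ⊢
      refine Finset.sum_lt_sum_of_nonempty ⟨D.home v0, Finset.mem_univ _⟩ (fun s _ => hno s)
    rw [Finset.sum_const, nsmul_eq_mul, Finset.card_univ, mul_div_cancel₀ _ hσ'.ne'] at this
    exact lt_irrefl _ this
  obtain ⟨s, hs⟩ := hex
  refine ⟨(st s).2, (h1 s).mem_RSet, ?_⟩
  have h7 : ∑ e ∈ (st s).2 ∩ L, y e = ∑ e ∈ (st s).2, y' e := by
    simp only [hy']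
    rw [Finset.sum_ite_mem]
  rw [h7]
  refine le_trans ?_ hs
  rw [le_div_iff₀ hσ']
  have h8 : (1 / (240 * ε * Fintype.card σ) * ∑ e ∈ L, y e) * Fintype.card σ
      = 2 * ((∑ e ∈ L, y e) / (480 * ε)) := by
    field_simp
    ring
  rw [h8]
  linarith

end

end Pool.Agent.Helper491.RP
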