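import Mathlib
import Pool.Agent.Helper491.RPFrac

set_option autoImplicit false
set_option linter.unusedSectionVars false

namespace Pool.Agent.Helper491.RP

open Finset

/-- bin packing -/
theorem bins {α : Type*} [DecidableEq α] (w : α → ℝ) (hw0 : ∀ a, 0 ≤ w a) (hw1 : ∀ a, w a ≤ 1)
    (K : ℕ) (s : Finset α) : ∑ a ∈ s, w a < K + 1 →
    ∃ f : α → Fin (K + 1), ∀ k, ∑ a ∈ s.filter (fun a => f a = k), w a ≤ 2 := by
  induction s using Finset.induction_on with
  | empty => intro _; exact ⟨fun _ => 0, fun k => by simp⟩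
  | insert a s ha ih =>
    intro hs
    rw [Finset.sum_insert ha] at hs
    obtain ⟨f, hf⟩ := ih (by have := hw0 a; linarith)
    have hk : ∃ k : Fin (K + 1), ∑ b ∈ s.filter (fun b => f b = k), w b ≤ 1 := by
      by_contra hno
      push Not at hno
      have h1 : ∑ k : Fin (K + 1), (1 : ℝ) ≤ ∑ k : Fin (K + 1), ∑ b ∈ s.filter (fun b => f b = k), w b :=
        Finset.sum_le_sum (fun k _ => (hno k).le)
      rw [Finset.sum_fiberwise, Finset.sum_const, nsmul_eq_mul, Finset.card_univ, Fintype.card_fin] at h1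
      have := hw0 a
      push_cast at h1
      linarith
    obtain ⟨k0, hk0⟩ := hk
    refine ⟨Function.update f a k0, fun k => ?_⟩
    have hfil : (insert a s).filter (fun b => Function.update f a k0 b = k)
        ⊆ if k = k0 then insert a (s.filter (fun b => f b = k)) else s.filter (fun b => f b = k) := by
      intro b hb
      rw [Finset.mem_filter, Finset.mem_insert] at hb
      obtain ⟨hb1, hb2⟩ := hb
      by_cases hba : b = a
      · subst hba
        rw [Function.update_self] at hb2
        rw [if_pos hb2.symm]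
        exact Finset.mem_insert_self _ _
      · rw [Function.update_of_ne hba] at hb2
        have hbs := hb1.resolve_left hba
        split_ifs
        · exact Finset.mem_insert_of_mem (Finset.mem_filter.mpr ⟨hbs, hb2⟩)
        · exact Finset.mem_filter.mpr ⟨hbs, hb2⟩
    refine (Finset.sum_le_sum_of_subset_of_nonneg hfil (fun i _ _ => hw0 i)).trans ?_
    split_ifs with h
    · subst h
      rw [Finset.sum_insert (fun hm => ha (Finset.mem_filter.mp hm).1)]
      have := hw1 a
      linarith
    · exact hf k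

section
variable {V : Type*} [DecidableEq V] [Fintype V]
variable (G : SimpleGraph V) [DecidableRel G.Adj]

noncomputable def wt (u : V) : ℝ := (1 / 2 : ℝ) ^ (Nat.log 2 (G.degree u))

theorem wt_nonneg (u : V) : 0 ≤ wt G u := by unfold wt; positivity

theorem wt_le_one (u : V) : wt G u ≤ 1 := by
  unfold wt
  exact pow_le_one₀ (by norm_num) (by norm_num)

theorem deg_mul_wt (u : V) : (G.degree u : ℝ) * wt G u ≤ 2 := by
  unfold wt
  have h := Nat.lt_pow_succ_log_self (b := 2) (by norm_num) (G.degree u)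
  have h' : (G.degree u : ℝ) ≤ 2 ^ (Nat.log 2 (G.degree u) + 1) := by exact_mod_cast h.le
  calc (G.degree u : ℝ) * (1 / 2 : ℝ) ^ (Nat.log 2 (G.degree u))
      ≤ 2 ^ (Nat.log 2 (G.degree u) + 1) * (1 / 2 : ℝ) ^ (Nat.log 2 (G.degree u)) :=
        mul_le_mul_of_nonneg_right h' (by positivity)
    _ = 2 := by rw [pow_succ, mul_comm ((2:ℝ)^_) 2, mul_assoc, ← mul_pow]; norm_num

noncomputable def slotNum (x : V) : ℕ := ⌊∑ u ∈ G.neighborFinset x, wt G u⌋₊

abbrev SlotT : Type _ := Σ x : V, Fin (slotNum G x + 1)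

theorem exists_bins (x : V) : ∃ f : V → Fin (slotNum G x + 1),
    ∀ k, ∑ u ∈ (G.neighborFinset x).filter (fun u => f u = k), wt G u ≤ 2 := by
  refine bins (wt G) (wt_nonneg G) (wt_le_one G) _ _ ?_
  exact Nat.lt_floor_add_one _

noncomputable def binF (x : V) : V → Fin (slotNum G x + 1) := (exists_bins G x).choose

noncomputable def slotD : SlotData V (SlotT G) where
  base := Sigma.fst
  home := fun v => ⟨v, 0⟩
  sl := fun x u => ⟨x, binF G x u⟩
  base_home := fun _ => rfl
  base_sl := fun _ _ => rfl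

theorem slotD_grp (s : SlotT G) :
    ∑ u ∈ Finset.univ.filter (fun u => G.Adj ((slotD G).base s) u ∧ (slotD G).sl ((slotD G).base s) u = s),
      wt G u ≤ 2 := by
  obtain ⟨x, k⟩ := s
  refine le_trans (le_of_eq ?_) ((exists_bins G x).choose_spec k)
  refine Finset.sum_congr ?_ (fun _ _ => rfl)
  ext u
  simp only [slotD, Finset.mem_filter, Finset.mem_univ, true_and, SimpleGraph.mem_neighborFinset,
    Sigma.mk.injEq, heq_eq_eq, binF]

theorem card_slotT : (Fintype.card (SlotT G) : ℝ) ≤ 3 * Fintype.card V := by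
  rw [Fintype.card_sigma]
  simp only [Fintype.card_fin]
  push_cast
  rw [Finset.sum_add_distrib, Finset.sum_const, nsmul_eq_mul, mul_one, Finset.card_univ]
  have h1 : ∑ x : V, (slotNum G x : ℝ) ≤ ∑ x : V, ∑ u ∈ G.neighborFinset x, wt G u := by
    refine Finset.sum_le_sum (fun x _ => ?_)
    exact Nat.floor_le (Finset.sum_nonneg (fun u _ => wt_nonneg G u))
  have h2 : ∑ x : V, ∑ u ∈ G.neighborFinset x, wt G u = ∑ u : V, (G.degree u : ℝ) * wt G u := by
    have h3 : ∀ x : V, ∑ u ∈ G.neighborFinset x, wt G u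
        = ∑ u : V, if G.Adj x u then wt G u else 0 := by
      intro x
      rw [← Finset.sum_filter]
      refine Finset.sum_congr ?_ (fun _ _ => rfl)
      ext u
      simp
    rw [Finset.sum_congr rfl (fun x _ => h3 x), Finset.sum_comm]
    refine Finset.sum_congr rfl (fun u _ => ?_)
    rw [← Finset.sum_filter, Finset.sum_const, nsmul_eq_mul, ← G.card_neighborFinset_eq_degree]
    congr 3
    ext x
    simp [SimpleGraph.adj_comm]
  have h4 : ∑ u : V, (G.degree u : ℝ) * wt G u ≤ ∑ u : V, (2 : ℝ) :=
    Finset.sum_le_sum (fun u _ => deg_mul_wt G u)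
  rw [Finset.sum_const, nsmul_eq_mul, Finset.card_univ] at h4
  linarith

end

end Pool.Agent.Helper491.RP
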