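import Mathlib
import Pool.Agent.Helper491.RPSlots

set_option autoImplicit false
set_option linter.unusedSectionVars false

namespace Pool.Agent.Helper491.RP

open Finset

theorem smallness (i j : ℕ) (h : 3 * j + 12 ≤ i) :
    12 * (4 : ℝ) ^ i * Real.exp (-((1 / 2) ^ j * (3 / 2) ^ i)) ≤ (1 / 2) ^ j := by
  have h1 : (2 : ℝ) ^ (j + 4) ≤ (4 / 3) ^ i := by
    calc (2 : ℝ) ^ (j + 4) ≤ (64 / 27) ^ (j + 4) := pow_le_pow_left₀ (by norm_num) (by norm_num) _
      _ = (4 / 3) ^ (3 * (j + 4)) := by rw [pow_mul]; norm_num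
      _ ≤ (4 / 3) ^ i := pow_le_pow_right₀ (by norm_num) (by omega)
  have h2 : (16 : ℝ) * (9 / 8) ^ i ≤ (1 / 2) ^ j * (3 / 2) ^ i := by
    have e1 : ((3 : ℝ) / 2) ^ i = (9 / 8) ^ i * (4 / 3) ^ i := by rw [← mul_pow]; norm_num
    rw [e1]
    calc (16 : ℝ) * (9 / 8) ^ i = (1 / 2) ^ j * ((9 / 8) ^ i * 2 ^ (j + 4)) := by
          rw [pow_add, one_div, inv_pow]
          field_simp
          norm_num
      _ ≤ (1 / 2) ^ j * ((9 / 8) ^ i * (4 / 3) ^ i) := by
          refine mul_le_mul_of_nonneg_left ?_ (by positivity)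
          exact mul_le_mul_of_nonneg_left h1 (by positivity)
  have h3 : (1 : ℝ) + i * (1 / 8) ≤ (9 / 8) ^ i := by
    have := one_add_mul_le_pow (a := (1 / 8 : ℝ)) (by norm_num) i
    norm_num at this ⊢
    exact this
  have h4 : (16 : ℝ) + 2 * i ≤ (1 / 2) ^ j * (3 / 2) ^ i := by linarith
  have h5 : Real.exp (-((1 / 2) ^ j * (3 / 2) ^ i)) ≤ Real.exp (-(16 + 2 * i)) :=
    Real.exp_le_exp.mpr (by linarith)
  have he : (16 / 3 : ℝ) ≤ Real.exp 2 := by
    have := Real.exp_one_gt_d9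
    have e2 : Real.exp 2 = Real.exp 1 * Real.exp 1 := by rw [← Real.exp_add]; norm_num
    rw [e2]; nlinarith
  have he16 : (12 : ℝ) ≤ Real.exp 16 := by
    have := Real.add_one_le_exp (16 : ℝ)
    linarith
  have h6 : (12 : ℝ) * (4 : ℝ) ^ i * 2 ^ j ≤ Real.exp (16 + 2 * i) := by
    rw [Real.exp_add, show (2 : ℝ) * i = i * 2 by ring, Real.exp_nat_mul]
    have h7 : (4 : ℝ) ^ i * 2 ^ j ≤ (Real.exp 2) ^ i := by
      calc (4 : ℝ) ^ i * 2 ^ j ≤ 4 ^ i * 2 ^ (j + 4) := by
            refine mul_le_mul_of_nonneg_left ?_ (by positivity)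
            exact pow_le_pow_right₀ (by norm_num) (by omega)
        _ ≤ 4 ^ i * (4 / 3) ^ i := mul_le_mul_of_nonneg_left h1 (by positivity)
        _ = (16 / 3) ^ i := by rw [← mul_pow]; norm_num
        _ ≤ (Real.exp 2) ^ i := pow_le_pow_left₀ (by norm_num) he _
    calc (12 : ℝ) * 4 ^ i * 2 ^ j = 12 * (4 ^ i * 2 ^ j) := by ring
      _ ≤ Real.exp 16 * (Real.exp 2) ^ i := mul_le_mul he16 h7 (by positivity) (by positivity)
  calc 12 * (4 : ℝ) ^ i * Real.exp (-((1 / 2) ^ j * (3 / 2) ^ i))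
      ≤ 12 * (4 : ℝ) ^ i * Real.exp (-(16 + 2 * i)) :=
        mul_le_mul_of_nonneg_left h5 (by positivity)
    _ ≤ (1 / 2) ^ j := by
        rw [Real.exp_neg, one_div, inv_pow, ← div_eq_mul_inv, div_le_iff₀ (Real.exp_pos _),
          inv_mul_eq_div, le_div_iff₀ (by positivity)]
        exact h6

section
variable {V : Type*} [DecidableEq V] [Fintype V] {σ : Type*} [DecidableEq σ] [Fintype σ]
variable (G : SimpleGraph V) [DecidableRel G.Adj] (col : Sym2 V → ℕ)
variable (D : SlotData V σ)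

/-- edge set of a set of darts -/
def eim (P : Finset (V × V)) : Finset (Sym2 V) := P.image (fun p => s(p.1, p.2))

/-- dart star -/
def dstar (u : V) : Finset (V × V) := Finset.univ.filter (fun p => G.Adj p.1 p.2 ∧ p.1 = u)

/-- vertices of the group of slot `s` at scale `i` -/
def gset (s : σ) (i : ℕ) : Finset V := Finset.univ.filter
  (fun u => (G.Adj (D.base s) u ∧ D.sl (D.base s) u = s) ∧ Nat.log 2 (G.degree u) = i)

def dset (t : σ × ℕ × (V ⊕ ℕ)) : Finset (V × V) := Finset.univ.filter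
  (fun p => G.Adj p.1 p.2 ∧ p.1 ∈ gset G D t.1 t.2.1 ∧ KeyMem col t.2.2 p)

noncomputable def q34 (s : σ) (i : ℕ) : ℝ := (gset G D s i).card + (3 / 2 : ℝ) ^ i

structure Inv (j : ℕ) (L : Finset (Sym2 V)) : Prop where
  sub : ∀ e ∈ L, e ∈ G.edgeSet
  deg : ∀ p ∈ darts G L, 2 ^ (3 * j + 12) ≤ G.degree p.1
  t1 : ∀ u, ((L ∩ eim (dstar G u)).card : ℝ) ≤ (1 / 2) ^ j * G.degree u
  t34 : ∀ t, ((L ∩ eim (dset G col D t)).card : ℝ) ≤ (1 / 2) ^ j * q34 G D t.1 t.2.1

theorem mem_gset {s : σ} {i : ℕ} {u : V} : u ∈ gset G D s i ↔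
    (G.Adj (D.base s) u ∧ D.sl (D.base s) u = s) ∧ Nat.log 2 (G.degree u) = i := by
  unfold gset
  rw [Finset.mem_filter]
  exact ⟨fun h => h.2, fun h => ⟨Finset.mem_univ _, h⟩⟩

theorem mem_dset {s : σ} {i : ℕ} {κ : V ⊕ ℕ} {p : V × V} : p ∈ dset G col D (s, i, κ) ↔
    G.Adj p.1 p.2 ∧ p.1 ∈ gset G D s i ∧ KeyMem col κ p := by
  unfold dset
  rw [Finset.mem_filter]
  exact ⟨fun h => h.2, fun h => ⟨Finset.mem_univ _, h⟩⟩

theorem mem_darts {L : Finset (Sym2 V)} {p : V × V} : p ∈ darts G L ↔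
    G.Adj p.1 p.2 ∧ s(p.1, p.2) ∈ L := by
  unfold darts
  rw [Finset.mem_filter]
  exact ⟨fun h => h.2, fun h => ⟨Finset.mem_univ _, h⟩⟩

theorem mem_dstar {u : V} {p : V × V} : p ∈ dstar G u ↔ G.Adj p.1 p.2 ∧ p.1 = u := by
  unfold dstar
  rw [Finset.mem_filter]
  exact ⟨fun h => h.2, fun h => ⟨Finset.mem_univ _, h⟩⟩

theorem dart_fiber (P : Finset (V × V)) (e : Sym2 V) :
    (P.filter (fun p => s(p.1, p.2) = e)).card ≤ 2 := by
  induction e using Sym2.ind with
  | _ a b =>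
    refine (Finset.card_le_card (t := {(a, b), (b, a)}) ?_).trans Finset.card_le_two
    intro p hp
    rw [Finset.mem_filter, Sym2.eq_iff] at hp
    rw [Finset.mem_insert, Finset.mem_singleton]
    rcases hp.2 with ⟨h1, h2⟩ | ⟨h1, h2⟩
    · left; exact Prod.ext h1 h2
    · right; exact Prod.ext h1 h2

theorem darts_inter_card (L : Finset (Sym2 V)) (P : Finset (V × V)) :
    ((darts G L) ∩ P).card ≤ 2 * (L ∩ eim P).card := by
  refine (Finset.card_le_mul_card_image (f := fun p : V × V => s(p.1, p.2)) _ 2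
    (fun e _ => dart_fiber _ e)).trans ?_
  refine Nat.mul_le_mul_left _ (Finset.card_le_card ?_)
  intro e he
  rw [Finset.mem_image] at he
  obtain ⟨p, hp, rfl⟩ := he
  rw [Finset.mem_inter] at hp
  rw [Finset.mem_inter]
  refine ⟨?_, Finset.mem_image_of_mem _ hp.2⟩
  have := hp.1
  unfold darts at this
  rw [Finset.mem_filter] at this
  exact this.2.2

theorem eim_inter_card (L : Finset (Sym2 V)) (P : Finset (V × V)) (hP : ∀ p ∈ P, G.Adj p.1 p.2) :
    (L ∩ eim P).card ≤ ((darts G L) ∩ P).card := by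
  refine (Finset.card_le_card (t := ((darts G L) ∩ P).image (fun p => s(p.1, p.2))) ?_).trans
    Finset.card_image_le
  intro e he
  rw [Finset.mem_inter] at he
  obtain ⟨he1, he2⟩ := he
  unfold eim at he2
  rw [Finset.mem_image] at he2
  obtain ⟨p, hp, rfl⟩ := he2
  refine Finset.mem_image.mpr ⟨p, ?_, rfl⟩
  rw [Finset.mem_inter]
  refine ⟨?_, hp⟩
  unfold darts
  rw [Finset.mem_filter]
  exact ⟨Finset.mem_univ _, hP p hp, he1⟩

theorem dstar_inter_card (L : Finset (Sym2 V)) (u : V) :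
    ((darts G L).filter (fun p => p.1 = u)).card ≤ (L ∩ eim (dstar G u)).card := by
  refine Finset.card_le_card_of_injOn (fun p => s(p.1, p.2)) ?_ ?_
  · intro p hp
    rw [Finset.mem_coe, Finset.mem_filter] at hp
    obtain ⟨hp1, hp2⟩ := hp
    unfold darts at hp1
    rw [Finset.mem_filter] at hp1
    rw [Finset.mem_coe, Finset.mem_inter]
    refine ⟨hp1.2.2, ?_⟩
    unfold eim dstar
    refine Finset.mem_image.mpr ⟨p, ?_, rfl⟩
    rw [Finset.mem_filter]
    exact ⟨Finset.mem_univ _, hp1.2.1, hp2⟩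
  · rintro ⟨a, b⟩ hp ⟨a', b'⟩ hp' heq
    simp only [Finset.mem_coe, Finset.mem_filter] at hp hp'
    obtain ⟨_, rfl⟩ := hp
    obtain ⟨_, rfl⟩ := hp'
    simp only [Sym2.eq_iff] at heq
    rcases heq with ⟨_, h⟩ | ⟨h1, h2⟩
    · rw [h]
    · rw [h2, ← h1]

theorem geo34 (I : ℕ) : ∑ i ∈ Finset.range I, (3 / 4 : ℝ) ^ i ≤ 4 := by
  have h : ∑ i ∈ Finset.range I, (3 / 4 : ℝ) ^ i = 4 * (1 - (3 / 4) ^ I) := by
    induction I with
    | zero => simp
    | succ I ih => rw [Finset.sum_range_succ, ih, pow_succ]; ring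
  rw [h]
  have : (0 : ℝ) ≤ (3 / 4) ^ I := by positivity
  linarith

theorem log_lt (u : V) : Nat.log 2 (G.degree u) < Fintype.card V + 1 := by
  have h1 := Nat.log_le_self 2 (G.degree u)
  have h2 := G.degree_lt_card_verts u
  omega

theorem gset_sum (s : σ)
    (hg : ∑ u ∈ Finset.univ.filter (fun u => G.Adj (D.base s) u ∧ D.sl (D.base s) u = s), wt G u ≤ 2) :
    ∑ i ∈ Finset.range (Fintype.card V + 1), (1 / 2 : ℝ) ^ i * (gset G D s i).card ≤ 2 := by
  refine le_trans (le_of_eq ?_) hg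
  rw [← Finset.sum_fiberwise_of_maps_to (t := Finset.range (Fintype.card V + 1))
    (g := fun u => Nat.log 2 (G.degree u)) (fun u _ => Finset.mem_range.mpr (log_lt G u))]
  refine Finset.sum_congr rfl (fun i _ => ?_)
  have h1 : (Finset.univ.filter (fun u => G.Adj (D.base s) u ∧ D.sl (D.base s) u = s)).filter
      (fun u => Nat.log 2 (G.degree u) = i) = gset G D s i := by
    unfold gset
    rw [Finset.filter_filter]
  rw [h1, mul_comm, ← nsmul_eq_mul, ← Finset.sum_const]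
  refine Finset.sum_congr rfl (fun u hu => ?_)
  unfold gset at hu
  rw [Finset.mem_filter] at hu
  unfold wt
  rw [hu.2.2]

theorem KCond_of_Inv {j : ℕ} {L : Finset (Sym2 V)} (h : Inv G col D j L)
    (hg : ∀ s, ∑ u ∈ Finset.univ.filter (fun u => G.Adj (D.base s) u ∧ D.sl (D.base s) u = s),
      wt G u ≤ 2) : KCond G col D L (12 * (1 / 2) ^ j) := by
  have hd8 : ∀ p ∈ darts G L, 8 ≤ G.degree p.1 := by
    intro p hp
    refine le_trans ?_ (h.deg p hp)
    calc 8 = 2 ^ 3 := by norm_num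
      _ ≤ 2 ^ (3 * j + 12) := Nat.pow_le_pow_right (by norm_num) (by omega)
  refine ⟨h.sub, hd8, ?_, ?_⟩
  · intro u
    have h1 : (((darts G L).filter (fun p => p.1 = u)).card : ℝ) ≤ (L ∩ eim (dstar G u)).card := by
      exact_mod_cast dstar_inter_card G L u
    refine (h1.trans (h.t1 u)).trans ?_
    refine mul_le_mul_of_nonneg_right ?_ (by positivity)
    have : (0 : ℝ) < (1 / 2) ^ j := by positivity
    linarith
  · intro s κ
    have hfib := Finset.sum_fiberwise_of_maps_to (s := (darts G L).filter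
          (fun p => (G.Adj (D.base s) p.1 ∧ D.sl (D.base s) p.1 = s) ∧ KeyMem col κ p))
      (t := Finset.range (Fintype.card V + 1))
      (g := fun p : V × V => Nat.log 2 (G.degree p.1)) (fun p _ => Finset.mem_range.mpr (log_lt G p.1))
      (fun p : V × V => (1 / (G.degree p.1 : ℝ)))
    rw [← hfib]
    have h1 : ∀ i ∈ Finset.range (Fintype.card V + 1),
        ∑ p ∈ ((darts G L).filter
          (fun p => (G.Adj (D.base s) p.1 ∧ D.sl (D.base s) p.1 = s) ∧ KeyMem col κ p)).filter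
            (fun p => Nat.log 2 (G.degree p.1) = i), (1 / (G.degree p.1 : ℝ))
        ≤ (1 / 2 : ℝ) ^ i * (2 * ((1 / 2) ^ j * ((gset G D s i).card + (3 / 2 : ℝ) ^ i))) := by
      intro i _
      have h2 : ∀ p ∈ ((darts G L).filter
          (fun p => (G.Adj (D.base s) p.1 ∧ D.sl (D.base s) p.1 = s) ∧ KeyMem col κ p)).filter
            (fun p => Nat.log 2 (G.degree p.1) = i), (1 / (G.degree p.1 : ℝ)) ≤ (1 / 2) ^ i := by
        intro p hp
        rw [Finset.mem_filter, Finset.mem_filter] at hp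
        have h3 := hd8 p hp.1.1
        have h4 := Nat.pow_log_le_self 2 (show G.degree p.1 ≠ 0 by omega)
        rw [hp.2] at h4
        have h5 : (2 : ℝ) ^ i ≤ G.degree p.1 := by exact_mod_cast h4
        rw [one_div_pow]
        exact one_div_le_one_div_of_le (by positivity) h5
      refine (Finset.sum_le_card_nsmul _ _ _ h2).trans ?_
      rw [nsmul_eq_mul, mul_comm]
      refine mul_le_mul_of_nonneg_left ?_ (by positivity)
      have h6 : ((darts G L).filter
          (fun p => (G.Adj (D.base s) p.1 ∧ D.sl (D.base s) p.1 = s) ∧ KeyMem col κ p)).filter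
            (fun p => Nat.log 2 (G.degree p.1) = i) ⊆ (darts G L) ∩ dset G col D (s, i, κ) := by
        intro p hp
        rw [Finset.mem_filter, Finset.mem_filter] at hp
        rw [Finset.mem_inter, mem_dset, mem_gset]
        obtain ⟨⟨hp1, hp2, hp3⟩, hp4⟩ := hp
        exact ⟨hp1, ((mem_darts G).mp hp1).1, ⟨hp2, hp4⟩, hp3⟩
      have h8 := (Finset.card_le_card h6).trans (darts_inter_card G L (dset G col D (s, i, κ)))
      have h9 := h.t34 (s, i, κ)
      have h10 : ((((darts G L).filter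
          (fun p => (G.Adj (D.base s) p.1 ∧ D.sl (D.base s) p.1 = s) ∧ KeyMem col κ p)).filter
            (fun p => Nat.log 2 (G.degree p.1) = i)).card : ℝ)
            ≤ 2 * ((L ∩ eim (dset G col D (s, i, κ))).card : ℝ) := by exact_mod_cast h8
      refine h10.trans ?_
      unfold q34 at h9
      linarith
    refine (Finset.sum_le_sum h1).trans ?_
    have h11 : ∀ i ∈ Finset.range (Fintype.card V + 1),
        (1 / 2 : ℝ) ^ i * (2 * ((1 / 2) ^ j * ((gset G D s i).card + (3 / 2 : ℝ) ^ i)))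
        = 2 * (1 / 2) ^ j * ((1 / 2 : ℝ) ^ i * (gset G D s i).card) + 2 * (1 / 2) ^ j * (3 / 4) ^ i := by
      intro i _
      have : (3 / 4 : ℝ) ^ i = (1 / 2) ^ i * (3 / 2) ^ i := by rw [← mul_pow]; norm_num
      rw [this]; ring
    rw [Finset.sum_congr rfl h11, Finset.sum_add_distrib, ← Finset.mul_sum, ← Finset.mul_sum]
    have h12 := gset_sum G D s (hg s)
    have h13 := geo34 (Fintype.card V + 1)
    have h14 : (0 : ℝ) < (1 / 2) ^ j := by positivity
    nlinarith

end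

end Pool.Agent.Helper491.RP
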