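import Mathlib
import Pool.Agent.Helper491.RPStage

set_option autoImplicit false
set_option linter.unusedSectionVars false

namespace Pool.Agent.Helper491.RP

open Finset

theorem frac_mono {E : Type*} [DecidableEq E] {R : Set (Finset E)} {L : Finset E} {p p' : ℝ}
    (h : Frac R L p) (hp : p' ≤ p) : Frac R L p' := by
  intro y hy
  obtain ⟨P, hP, h1⟩ := h y hy
  refine ⟨P, hP, le_trans ?_ h1⟩
  exact mul_le_mul_of_nonneg_right hp (Finset.sum_nonneg (fun e _ => hy e))

theorem expBound (m q : ℕ) (ε Q pN : ℝ) (hε : 0 ≤ ε) (hQ : 0 ≤ Q) (hm : (m : ℝ) ≤ ε * Q)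
    (hq : ε / 2 * Q ≤ q) (hpN : 38 ≤ pN) :
    (2 : ℝ) ^ m * Real.exp (-(pN * q / 2)) ≤ Real.exp (-(ε * Q)) := by
  have h1 : (2 : ℝ) ^ m ≤ Real.exp (ε * Q) := by
    calc (2 : ℝ) ^ m ≤ (Real.exp 1) ^ m := by
          refine pow_le_pow_left₀ (by norm_num) ?_ _
          have := Real.exp_one_gt_d9
          linarith
      _ = Real.exp m := by rw [← Real.exp_nat_mul, mul_one]
      _ ≤ Real.exp (ε * Q) := Real.exp_le_exp.mpr hm
  have h2 : Real.exp (-(pN * q / 2)) ≤ Real.exp (-(2 * (ε * Q))) := by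
    refine Real.exp_le_exp.mpr ?_
    have h3 : 38 * (ε / 2 * Q) ≤ pN * q :=
      mul_le_mul hpN hq (by positivity) (by linarith)
    have h4 : 0 ≤ ε * Q := mul_nonneg hε hQ
    linarith
  calc (2 : ℝ) ^ m * Real.exp (-(pN * q / 2)) ≤ Real.exp (ε * Q) * Real.exp (-(2 * (ε * Q))) :=
        mul_le_mul h1 h2 (Real.exp_pos _).le (Real.exp_pos _).le
    _ = Real.exp (-(ε * Q)) := by rw [← Real.exp_add]; congr 1; ring

section
variable {V : Type*} [DecidableEq V] [Fintype V] {σ : Type*} [DecidableEq σ] [Fintype σ]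
variable (G : SimpleGraph V) [DecidableRel G.Adj] (col : Sym2 V → ℕ)
variable (D : SlotData V σ)

/-- covering by rainbow paths -/
def Cov (X : Finset (Sym2 V)) (r : ℝ) : Prop :=
  ∃ l : List (Finset (Sym2 V)), (l.length : ℝ) ≤ r ∧ (∀ P ∈ l, P ∈ RSet G col) ∧
    ∀ e ∈ X, ∃ P ∈ l, e ∈ P

variable {G col}

theorem Cov.mono {X Y : Finset (Sym2 V)} {r r' : ℝ} (h : Cov G col X r) (hXY : Y ⊆ X)
    (hr : r ≤ r') : Cov G col Y r' := by
  obtain ⟨l, h1, h2, h3⟩ := h
  exact ⟨l, h1.trans hr, h2, fun e he => h3 e (hXY he)⟩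

theorem Cov.union {X Y : Finset (Sym2 V)} {r r' : ℝ} (h : Cov G col X r) (h' : Cov G col Y r') :
    Cov G col (X ∪ Y) (r + r') := by
  obtain ⟨l, h1, h2, h3⟩ := h
  obtain ⟨l', h1', h2', h3'⟩ := h'
  refine ⟨l ++ l', ?_, ?_, ?_⟩
  · rw [List.length_append]; push_cast; linarith
  · intro P hP
    rcases List.mem_append.mp hP with h | h
    · exact h2 P h
    · exact h2' P h
  · intro e he
    rcases Finset.mem_union.mp he with h | h
    · obtain ⟨P, hP, heP⟩ := h3 e h
      exact ⟨P, List.mem_append_left _ hP, heP⟩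
    · obtain ⟨P, hP, heP⟩ := h3' e h
      exact ⟨P, List.mem_append_right _ hP, heP⟩

theorem Cov.single {X : Finset (Sym2 V)} (hX : ∀ e ∈ X, e ∈ G.edgeSet) :
    Cov G col X X.card := by
  refine ⟨X.toList.map (fun e => {e}), by simp, ?_, ?_⟩
  · intro P hP
    rw [List.mem_map] at hP
    obtain ⟨e, he, rfl⟩ := hP
    have h1 := hX e (Finset.mem_toList.mp he)
    induction e using Sym2.ind with
    | _ a b => exact RSet.single h1
  · intro e he
    exact ⟨{e}, List.mem_map.mpr ⟨e, Finset.mem_toList.mpr he, rfl⟩, Finset.mem_singleton_self e⟩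

variable (G col)

/-- index type of tests -/
abbrev TT (V σ : Type*) := V ⊕ ((σ × ℕ × (V ⊕ ℕ)) ⊕ Sym2 V)

def keysF : Finset (V ⊕ ℕ) := (Finset.univ : Finset V).disjSum (Finset.univ.image col)

def T34 : Finset (σ × ℕ × (V ⊕ ℕ)) :=
  Finset.univ ×ˢ (Finset.range (Fintype.card V + 1) ×ˢ keysF col)

def Tset (low : Finset (Sym2 V)) : Finset (TT V σ) :=
  (Finset.univ : Finset V).disjSum ((T34 col : Finset (σ × ℕ × (V ⊕ ℕ))).disjSum low)

def Aset : TT V σ → Finset (Sym2 V) :=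
  Sum.elim (fun u => eim (dstar G u)) (Sum.elim (fun t => eim (dset G col D t)) (fun e => {e}))

noncomputable def qn (j : ℕ) : TT V σ → ℕ :=
  Sum.elim (fun u => ⌊(1 / 2 : ℝ) ^ (j + 1) * G.degree u⌋₊ + 1)
    (Sum.elim (fun t => ⌊(1 / 2 : ℝ) ^ (j + 1) * q34 G D t.1 t.2.1⌋₊ + 1) (fun _ => 1))

theorem Aset_two (t : TT V σ) {P : Finset (Sym2 V)} (hP : P ∈ RSet G col) :
    (P ∩ Aset G col D t).card ≤ 2 := by
  rcases t with u | ⟨s, i, κ⟩ | e
  · refine RSet.star hP u _ ?_
    intro e he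
    simp only [Aset, Sum.elim_inl, eim, Finset.mem_image] at he
    obtain ⟨p, hp, rfl⟩ := he
    rw [mem_dstar] at hp
    rw [← hp.2]
    exact Sym2.mem_mk_left _ _
  · rcases κ with v | c
    · refine RSet.star hP v _ ?_
      intro e he
      simp only [Aset, Sum.elim_inl, Sum.elim_inr, eim, Finset.mem_image] at he
      obtain ⟨p, hp, rfl⟩ := he
      rw [mem_dset] at hp
      rcases hp.2.2 with h | h
      · rw [Sum.inl_injective h]
        exact Sym2.mem_mk_right _ _
      · exact absurd h (by simp)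
    · refine RSet.color hP c _ ?_
      intro e he
      simp only [Aset, Sum.elim_inl, Sum.elim_inr, eim, Finset.mem_image] at he
      obtain ⟨p, hp, rfl⟩ := he
      rw [mem_dset] at hp
      rcases hp.2.2 with h | h
      · exact absurd h (by simp)
      · exact (Sum.inr_injective h).symm
  · simp only [Aset, Sum.elim_inr]
    refine (Finset.card_le_card Finset.inter_subset_right).trans ?_
    simp

theorem deg_lt_pow (u : V) : (G.degree u : ℝ) ≤ 2 * 2 ^ (Nat.log 2 (G.degree u)) := by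
  have h := Nat.lt_pow_succ_log_self (b := 2) (by norm_num) (G.degree u)
  have h' : (G.degree u : ℝ) ≤ 2 ^ (Nat.log 2 (G.degree u) + 1) := by exact_mod_cast h.le
  rw [pow_succ] at h'
  linarith

theorem card_tests_dart (p : V × V) (hp : G.Adj p.1 p.2) :
    ((T34 col : Finset (σ × ℕ × (V ⊕ ℕ))).filter (fun t => p ∈ dset G col D t)).card
      ≤ 2 * G.degree p.1 := by
  classical
  have h1 : ((T34 col : Finset (σ × ℕ × (V ⊕ ℕ))).filter (fun t => p ∈ dset G col D t)).card
      ≤ ((G.neighborFinset p.1) ×ˢ ({Sum.inl p.2, Sum.inr (col s(p.1, p.2))} : Finset (V ⊕ ℕ))).card := by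
    refine Finset.card_le_card_of_injOn (fun t => (D.base t.1, t.2.2)) ?_ ?_
    · rintro ⟨s, i, κ⟩ ht
      rw [Finset.mem_coe, Finset.mem_filter, mem_dset, mem_gset] at ht
      rw [Finset.mem_coe, Finset.mem_product, SimpleGraph.mem_neighborFinset]
      refine ⟨ht.2.2.1.1.1.symm, ?_⟩
      rw [Finset.mem_insert, Finset.mem_singleton]
      exact ht.2.2.2
    · rintro ⟨s, i, κ⟩ ht ⟨s', i', κ'⟩ ht' heq
      rw [Finset.mem_coe, Finset.mem_filter, mem_dset, mem_gset] at ht ht'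
      simp only [Prod.mk.injEq] at heq
      obtain ⟨e1, e2⟩ := heq
      have e3 : s = s' := by rw [← ht.2.2.1.1.2, ← ht'.2.2.1.1.2, e1]
      have e4 : i = i' := by rw [← ht.2.2.1.2, ← ht'.2.2.1.2]
      rw [e2, e3, e4]
  refine h1.trans ?_
  rw [Finset.card_product, G.card_neighborFinset_eq_degree, mul_comm]
  exact Nat.mul_le_mul_right _ Finset.card_le_two

/-- weight of tests of the second kind -/
theorem sum34 (L : Finset (Sym2 V)) (φ : ℕ → ℝ) (hφ : ∀ i, 0 ≤ φ i) :
    ∑ t ∈ (T34 col : Finset (σ × ℕ × (V ⊕ ℕ))), ((L ∩ eim (dset G col D t)).card : ℝ) * φ t.2.1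
      ≤ ∑ u : V, (((darts G L).filter (fun p => p.1 = u)).card : ℝ)
          * (2 * G.degree u * φ (Nat.log 2 (G.degree u))) := by
  classical
  have h1 : ∀ t ∈ (T34 col : Finset (σ × ℕ × (V ⊕ ℕ))),
      ((L ∩ eim (dset G col D t)).card : ℝ) * φ t.2.1
      ≤ ∑ p ∈ darts G L, if p ∈ dset G col D t then φ (Nat.log 2 (G.degree p.1)) else 0 := by
    rintro ⟨s, i, κ⟩ _
    have h2 : ((L ∩ eim (dset G col D (s, i, κ))).card : ℝ) ≤ ((darts G L ∩ dset G col D (s, i, κ)).card : ℝ) := by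
      exact_mod_cast eim_inter_card G L (dset G col D (s, i, κ)) (fun p hp => ((mem_dset G col D).mp hp).1)
    refine (mul_le_mul_of_nonneg_right h2 (hφ i)).trans (le_of_eq ?_)
    rw [← Finset.sum_filter, Finset.filter_mem_eq_inter, ← nsmul_eq_mul, ← Finset.sum_const]
    refine Finset.sum_congr rfl (fun p hp => ?_)
    have h3 := ((mem_dset G col D).mp (Finset.mem_inter.mp hp).2).2.1
    rw [((mem_gset G D).mp h3).2]
  refine (Finset.sum_le_sum h1).trans ?_
  rw [Finset.sum_comm]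
  have h4 : ∀ p ∈ darts G L, ∑ t ∈ (T34 col : Finset (σ × ℕ × (V ⊕ ℕ))),
      (if p ∈ dset G col D t then φ (Nat.log 2 (G.degree p.1)) else 0)
      ≤ 2 * G.degree p.1 * φ (Nat.log 2 (G.degree p.1)) := by
    intro p hp
    rw [← Finset.sum_filter, Finset.sum_const, nsmul_eq_mul]
    refine mul_le_mul_of_nonneg_right ?_ (hφ _)
    exact_mod_cast card_tests_dart G col D p ((mem_darts G).mp hp).1
  refine (Finset.sum_le_sum h4).trans (le_of_eq ?_)
  rw [← Finset.sum_fiberwise (s := darts G L) (g := fun p => p.1)]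
  refine Finset.sum_congr rfl (fun u _ => ?_)
  rw [← nsmul_eq_mul, ← Finset.sum_const]
  refine Finset.sum_congr rfl (fun p hp => ?_)
  rw [(Finset.mem_filter.mp hp).2]

theorem degL_le (L : Finset (Sym2 V)) (u : V) :
    ((darts G L).filter (fun p => p.1 = u)).card ≤ G.degree u := by
  rw [← G.card_neighborFinset_eq_degree]
  refine Finset.card_le_card_of_injOn (fun p => p.2) ?_ ?_
  · intro p hp
    rw [Finset.mem_coe, Finset.mem_filter, mem_darts] at hp
    rw [Finset.mem_coe, SimpleGraph.mem_neighborFinset, ← hp.2]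
    exact hp.1.1
  · rintro ⟨a, b⟩ hp ⟨a', b'⟩ hp' heq
    rw [Finset.mem_coe, Finset.mem_filter] at hp hp'
    have h1 := hp.2
    have h2 := hp'.2
    simp only at h1 h2 heq
    rw [h1, h2, heq]

/-- per-vertex bound : total contribution of the tests -/
theorem perVertex {j : ℕ} {L : Finset (Sym2 V)} (h : Inv G col D j L) (u : V) :
    ((L ∩ eim (dstar G u)).card : ℝ) * Real.exp (-((1 / 2) ^ j * G.degree u))
      + (((darts G L).filter (fun p => p.1 = u)).card : ℝ)
          * (2 * G.degree u * Real.exp (-((1 / 2) ^ j * (3 / 2) ^ (Nat.log 2 (G.degree u)))))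
      ≤ (1 / 2) ^ j := by
  set i := Nat.log 2 (G.degree u) with hi
  set c := ((darts G L).filter (fun p => p.1 = u)).card with hc
  have hm : (L ∩ eim (dstar G u)).card ≤ c := by
    refine (eim_inter_card G L (dstar G u) (fun p hp => ((mem_dstar G).mp hp).1)).trans ?_
    refine Finset.card_le_card ?_
    intro p hp
    rw [Finset.mem_inter, mem_dstar] at hp
    exact Finset.mem_filter.mpr ⟨hp.1, hp.2.2⟩
  rcases Nat.eq_zero_or_pos c with h0 | hpos
  · rw [h0] at hm ⊢
    have : (L ∩ eim (dstar G u)).card = 0 := by omega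
    rw [this]
    simp
  · obtain ⟨p, hp⟩ := Finset.card_pos.mp hpos
    rw [Finset.mem_filter] at hp
    have hdeg := h.deg p hp.1
    rw [hp.2] at hdeg
    have hdeg0 : G.degree u ≠ 0 := by
      have : 0 < 2 ^ (3 * j + 12) := by positivity
      omega
    have hi' : 3 * j + 12 ≤ i := by
      rw [hi]
      exact (Nat.le_log_iff_pow_le (by norm_num) hdeg0).mpr hdeg
    have hsm := smallness i j hi'
    have hd2 := deg_lt_pow G u
    rw [← hi] at hd2
    have hlow : (2 : ℝ) ^ i ≤ G.degree u := by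
      exact_mod_cast Nat.pow_log_le_self 2 hdeg0
    have hcle : (c : ℝ) ≤ G.degree u := by exact_mod_cast degL_le G L u
    have hm' : ((L ∩ eim (dstar G u)).card : ℝ) ≤ c := by exact_mod_cast hm
    set φ := Real.exp (-((1 / 2) ^ j * (3 / 2) ^ i)) with hφ
    have hφ0 : 0 < φ := Real.exp_pos _
    have hε : (0 : ℝ) < (1 / 2) ^ j := by positivity
    have hexp : Real.exp (-((1 / 2) ^ j * G.degree u)) ≤ φ := by
      rw [hφ]
      refine Real.exp_le_exp.mpr ?_
      have h1 : (3 / 2 : ℝ) ^ i ≤ 2 ^ i := pow_le_pow_left₀ (by norm_num) (by norm_num) _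
      have h2 : (1 / 2 : ℝ) ^ j * (3 / 2) ^ i ≤ (1 / 2) ^ j * G.degree u :=
        mul_le_mul_of_nonneg_left (h1.trans hlow) hε.le
      linarith
    have h2i : (1 : ℝ) ≤ 2 ^ i := one_le_pow₀ (by norm_num)
    have e4 : (4 : ℝ) ^ i = 2 ^ i * 2 ^ i := by rw [← mul_pow]; norm_num
    have t1 : ((L ∩ eim (dstar G u)).card : ℝ) * Real.exp (-((1 / 2) ^ j * G.degree u))
        ≤ 4 * 4 ^ i * φ := by
      have h1 : ((L ∩ eim (dstar G u)).card : ℝ) ≤ 4 * 4 ^ i := by
        rw [e4]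
        nlinarith
      exact mul_le_mul h1 hexp (Real.exp_pos _).le (by positivity)
    have t2 : (c : ℝ) * (2 * G.degree u * φ) ≤ 8 * 4 ^ i * φ := by
      have h1 : (c : ℝ) * (2 * G.degree u) ≤ 8 * 4 ^ i := by
        rw [e4]
        have h3 : (c : ℝ) * (2 * G.degree u) ≤ (2 * 2 ^ i) * (2 * (2 * 2 ^ i)) :=
          mul_le_mul (hcle.trans hd2) (by linarith) (by positivity) (by positivity)
        linarith
      calc (c : ℝ) * (2 * G.degree u * φ) = (c : ℝ) * (2 * G.degree u) * φ := by ring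
        _ ≤ 8 * 4 ^ i * φ := mul_le_mul_of_nonneg_right h1 hφ0.le
    calc _ ≤ 4 * 4 ^ i * φ + 8 * 4 ^ i * φ := add_le_add t1 t2
      _ = 12 * 4 ^ i * φ := by ring
      _ ≤ _ := hsm

end

end Pool.Agent.Helper491.RP
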