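import Mathlib
import Pool.Agent.Helper491.RPMain

set_option autoImplicit false
set_option linter.unusedSectionVars false

namespace Pool.Agent.Helper491.RP

open Finset

section
variable {V : Type*} [DecidableEq V] [Fintype V] {σ : Type*} [DecidableEq σ] [Fintype σ]
variable (G : SimpleGraph V) [DecidableRel G.Adj] (col : Sym2 V → ℕ)
variable (D : SlotData V σ)

theorem lowExp (j : ℕ) (pN : ℝ) (hpN : 6 * (j : ℝ) + 38 ≤ pN) :
    (2 : ℝ) ^ (3 * j + 15) * (2 * Real.exp (-(pN / 2))) ≤ 1 := by
  have h1 : Real.exp (-(pN / 2)) ≤ (1 / 2) ^ (3 * j + 19) := by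
    calc Real.exp (-(pN / 2)) ≤ Real.exp (-((3 * j + 19 : ℕ) : ℝ)) := by
          refine Real.exp_le_exp.mpr ?_
          push_cast
          linarith
      _ = (Real.exp (-1)) ^ (3 * j + 19) := by
          rw [← Real.exp_nat_mul]; congr 1; ring
      _ ≤ (1 / 2) ^ (3 * j + 19) := by
          refine pow_le_pow_left₀ (Real.exp_pos _).le ?_ _
          rw [Real.exp_neg, one_div]
          refine inv_anti₀ (by norm_num) ?_
          have := Real.exp_one_gt_d9
          linarith
  calc (2 : ℝ) ^ (3 * j + 15) * (2 * Real.exp (-(pN / 2)))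
      ≤ (2 : ℝ) ^ (3 * j + 15) * (2 * (1 / 2) ^ (3 * j + 19)) := by
        refine mul_le_mul_of_nonneg_left ?_ (by positivity)
        linarith
    _ = 1 / 8 := by
        rw [show 3 * j + 19 = (3 * j + 15) + 4 by ring, pow_add (1 / 2 : ℝ), one_div, inv_pow]
        field_simp
        norm_num
    _ ≤ 1 := by norm_num

theorem eim_dset_empty {L : Finset (Sym2 V)} (s : σ) (i : ℕ) (κ : V ⊕ ℕ)
    (h : ((s, i, κ) : σ × ℕ × (V ⊕ ℕ)) ∉ (T34 col : Finset (σ × ℕ × (V ⊕ ℕ)))) :
    eim (dset G col D (s, i, κ)) = ∅ := by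
  unfold eim
  rw [Finset.image_eq_empty, Finset.eq_empty_iff_forall_notMem]
  intro p hp
  rw [mem_dset, mem_gset] at hp
  apply h
  unfold T34 keysF
  rw [Finset.mem_product, Finset.mem_product]
  refine ⟨Finset.mem_univ _, ?_, ?_⟩
  · rw [Finset.mem_range, ← hp.2.1.2]
    exact log_lt G p.1
  · rcases hp.2.2 with h1 | h1
    · rw [h1, Finset.inl_mem_disjSum]; exact Finset.mem_univ _
    · rw [h1, Finset.inr_mem_disjSum, Finset.mem_image]
      exact ⟨_, Finset.mem_univ _, rfl⟩

theorem q34_nonneg (s : σ) (i : ℕ) : 0 ≤ q34 G D s i := by unfold q34; positivity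

theorem stage (hprop : ∀ a b c, G.Adj a b → G.Adj a c → b ≠ c → col s(a, b) ≠ col s(a, c))
    (hg : ∀ s, ∑ u ∈ Finset.univ.filter (fun u => G.Adj (D.base s) u ∧ D.sl (D.base s) u = s),
      wt G u ≤ 2) (hcard : (Fintype.card σ : ℝ) ≤ 3 * Fintype.card V)
    {j : ℕ} {L : Finset (Sym2 V)} (h : Inv G col D j L) (hne : L.Nonempty) :
    ∃ L', L' ⊆ L ∧ Inv G col D (j + 1) L' ∧
      Cov G col (L \ L') (((6 * j + 38) * 8640 + 3) * ((1 / 2) ^ j * Fintype.card V)) := by
  classical
  set n : ℝ := (Fintype.card V : ℝ) with hn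
  set ε : ℝ := (1 / 2) ^ j with hεd
  have hε : 0 < ε := by positivity
  -- nonempty facts
  obtain ⟨p0, hp0⟩ : (darts G L).Nonempty := by
    rw [← Finset.card_pos]
    exact lt_of_lt_of_le (Finset.card_pos.mpr hne) (card_le_darts G L h.sub)
  have : Nonempty V := ⟨p0.1⟩
  have hdeg0 := h.deg p0 hp0
  have hnN : 2 ^ (3 * j + 12) ≤ Fintype.card V :=
    hdeg0.trans (G.degree_lt_card_verts p0.1).le
  have hn1 : (2 : ℝ) ^ j ≤ n := by
    rw [hn]
    have : 2 ^ j ≤ Fintype.card V := (Nat.pow_le_pow_right (by norm_num) (by omega)).trans hnN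
    exact_mod_cast this
  have hnpos : 0 < n := lt_of_lt_of_le (by positivity) hn1
  have hεn : 1 ≤ ε * n := by
    rw [hεd, one_div, inv_pow, inv_mul_eq_div, le_div_iff₀ (by positivity)]
    linarith
  have hσpos : (0 : ℝ) < Fintype.card σ := by
    exact_mod_cast Fintype.card_pos_iff.mpr ⟨D.home p0.1⟩
  -- fractional
  set p : ℝ := 1 / (8640 * (ε * n)) with hp
  have hppos : 0 < p := by positivity
  have hF : Frac (RSet G col) L p := by
    refine frac_mono (frac G col D hprop L (12 * (1 / 2) ^ j) (by positivity)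
      (KCond_of_Inv G col D h hg)) ?_
    rw [hp, ← hεd]
    refine one_div_le_one_div_of_le (by positivity) ?_
    nlinarith
  set N : ℕ := ⌈(6 * (j : ℝ) + 38) * (8640 * (ε * n))⌉₊ with hN
  have hpN : 6 * (j : ℝ) + 38 ≤ p * N := by
    have h1 : (6 * (j : ℝ) + 38) * (8640 * (ε * n)) ≤ N := Nat.le_ceil _
    rw [hp, one_div, inv_mul_eq_div, le_div_iff₀ (by positivity)]
    exact h1
  have hpN38 : 38 ≤ p * N := by
    have : (0 : ℝ) ≤ j := by positivity
    linarith
  have hNle : (N : ℝ) ≤ (6 * (j : ℝ) + 38) * (8640 * (ε * n)) + ε * n := by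
    have h1 := Nat.ceil_lt_add_one (a := (6 * (j : ℝ) + 38) * (8640 * (ε * n))) (by positivity)
    linarith
  -- low edges
  set low : Finset (Sym2 V) := L.filter (fun e => ∃ u, u ∈ e ∧ G.degree u < 2 ^ (3 * j + 15)) with hlow
  set T : Finset (TT V σ) := Tset col low with hT
  obtain ⟨l, hl1, hl2, hl3⟩ := greedyTests (RSet G col) L p hF T (Aset G col D)
    (fun t _ P hP => Aset_two G col D t hP) (qn G D j) N
  set R := L.filter (fun e => ∀ P ∈ l, e ∉ P) with hR
  set B := T.filter (fun t => qn G D j t ≤ (R ∩ Aset G col D t).card) with hB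
  -- the bound
  have hlowcard : (low.card : ℝ) ≤ n * (ε * 2 ^ (3 * j + 15)) := by
    have h1 : low ⊆ (Finset.univ.filter (fun u => G.degree u < 2 ^ (3 * j + 15))).biUnion
        (fun u => L ∩ eim (dstar G u)) := by
      intro e he
      rw [hlow, Finset.mem_filter] at he
      obtain ⟨he1, u, hue, hdu⟩ := he
      rw [Finset.mem_biUnion]
      refine ⟨u, Finset.mem_filter.mpr ⟨Finset.mem_univ _, hdu⟩, Finset.mem_inter.mpr ⟨he1, ?_⟩⟩
      have h2 := h.sub e he1
      unfold eim
      rw [Finset.mem_image]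
      obtain ⟨w, rfl⟩ := Sym2.mem_iff_exists.mp hue
      exact ⟨(u, w), (mem_dstar G).mpr ⟨h2, rfl⟩, rfl⟩
    have h2 := (Finset.card_le_card h1).trans Finset.card_biUnion_le
    have h3 : (low.card : ℝ) ≤ ∑ u ∈ Finset.univ.filter (fun u => G.degree u < 2 ^ (3 * j + 15)),
        ((L ∩ eim (dstar G u)).card : ℝ) := by exact_mod_cast h2
    refine h3.trans ?_
    have h4 : ∑ u ∈ Finset.univ.filter (fun u => G.degree u < 2 ^ (3 * j + 15)),
        ((L ∩ eim (dstar G u)).card : ℝ) ≤ ∑ u : V, ε * 2 ^ (3 * j + 15) := by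
      refine (Finset.sum_le_sum (g := fun _ => ε * (2 : ℝ) ^ (3 * j + 15)) (fun u hu => ?_)).trans ?_
      · refine (h.t1 u).trans ?_
        refine mul_le_mul_of_nonneg_left ?_ hε.le
        exact_mod_cast (Finset.mem_filter.mp hu).2.le
      · exact Finset.sum_le_sum_of_subset_of_nonneg (Finset.filter_subset _ _)
          (fun _ _ _ => by positivity)
    refine h4.trans (le_of_eq ?_)
    rw [Finset.sum_const, nsmul_eq_mul, Finset.card_univ]
  have hrhs : ∑ t ∈ T, ((L ∩ Aset G col D t).card : ℝ) *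
      (2 ^ (L ∩ Aset G col D t).card * Real.exp (-(p * N * qn G D j t / 2))) ≤ 2 * (ε * n) := by
    rw [hT]
    unfold Tset
    rw [Finset.sum_disjSum, Finset.sum_disjSum]
    have b1 : ∑ u : V, ((L ∩ Aset G col D (Sum.inl u : TT V σ)).card : ℝ) *
        (2 ^ (L ∩ Aset G col D (Sum.inl u : TT V σ)).card
          * Real.exp (-(p * N * qn G D j (Sum.inl u : TT V σ) / 2)))
        ≤ ∑ u : V, ((L ∩ eim (dstar G u)).card : ℝ) * Real.exp (-(ε * G.degree u)) := by
      refine Finset.sum_le_sum (fun u _ => ?_)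
      simp only [Aset, qn, Sum.elim_inl]
      refine mul_le_mul_of_nonneg_left ?_ (by positivity)
      refine expBound _ _ ε _ _ hε.le (by positivity) (h.t1 u) ?_ hpN38
      have h1 := Nat.lt_floor_add_one ((1 / 2 : ℝ) ^ (j + 1) * G.degree u)
      push_cast
      rw [pow_succ, ← hεd] at h1 ⊢
      linarith
    have b2 : ∑ t ∈ (T34 col : Finset (σ × ℕ × (V ⊕ ℕ))),
        ((L ∩ Aset G col D (Sum.inr (Sum.inl t) : TT V σ)).card : ℝ) *
        (2 ^ (L ∩ Aset G col D (Sum.inr (Sum.inl t) : TT V σ)).card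
          * Real.exp (-(p * N * qn G D j (Sum.inr (Sum.inl t) : TT V σ) / 2)))
        ≤ ∑ t ∈ (T34 col : Finset (σ × ℕ × (V ⊕ ℕ))), ((L ∩ eim (dset G col D t)).card : ℝ)
          * Real.exp (-(ε * (3 / 2) ^ t.2.1)) := by
      refine Finset.sum_le_sum (fun t _ => ?_)
      simp only [Aset, qn, Sum.elim_inl, Sum.elim_inr]
      refine mul_le_mul_of_nonneg_left ?_ (by positivity)
      refine (expBound _ _ ε _ _ hε.le (q34_nonneg G D _ _) (h.t34 t) ?_ hpN38).trans ?_
      · have h1 := Nat.lt_floor_add_one ((1 / 2 : ℝ) ^ (j + 1) * q34 G D t.1 t.2.1)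
        push_cast
        rw [pow_succ, ← hεd] at h1 ⊢
        linarith
      · refine Real.exp_le_exp.mpr ?_
        have h1 : (3 / 2 : ℝ) ^ t.2.1 ≤ q34 G D t.1 t.2.1 := by
          unfold q34
          have : (0 : ℝ) ≤ (gset G D t.1 t.2.1).card := by positivity
          linarith
        have h2 := mul_le_mul_of_nonneg_left h1 hε.le
        linarith
    have b3 : ∑ e ∈ low, ((L ∩ Aset G col D (Sum.inr (Sum.inr e) : TT V σ)).card : ℝ) *
        (2 ^ (L ∩ Aset G col D (Sum.inr (Sum.inr e) : TT V σ)).card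
          * Real.exp (-(p * N * qn G D j (Sum.inr (Sum.inr e) : TT V σ) / 2)))
        ≤ ε * n := by
      have c1 : ∀ e ∈ low, ((L ∩ Aset G col D (Sum.inr (Sum.inr e) : TT V σ)).card : ℝ) *
        (2 ^ (L ∩ Aset G col D (Sum.inr (Sum.inr e) : TT V σ)).card
          * Real.exp (-(p * N * qn G D j (Sum.inr (Sum.inr e) : TT V σ) / 2)))
          ≤ 2 * Real.exp (-(p * N / 2)) := by
        intro e _
        simp only [Aset, qn, Sum.elim_inr]
        have h1 : (L ∩ {e}).card ≤ 1 :=
          (Finset.card_le_card Finset.inter_subset_right).trans (by simp)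
        have h2 : ((L ∩ {e}).card : ℝ) ≤ 1 := by exact_mod_cast h1
        have h3 : (2 : ℝ) ^ (L ∩ {e}).card ≤ 2 := by
          calc (2 : ℝ) ^ (L ∩ {e}).card ≤ 2 ^ 1 := pow_le_pow_right₀ (by norm_num) h1
            _ = 2 := by norm_num
        have h4 : Real.exp (-(p * N * ((1 : ℕ) : ℝ) / 2)) = Real.exp (-(p * N / 2)) := by
          congr 1; push_cast; ring
        rw [h4]
        have h5 := Real.exp_pos (-(p * N / 2))
        calc ((L ∩ {e}).card : ℝ) * (2 ^ (L ∩ {e}).card * Real.exp (-(p * N / 2)))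
            ≤ 1 * (2 * Real.exp (-(p * N / 2))) :=
              mul_le_mul h2 (mul_le_mul_of_nonneg_right h3 h5.le) (by positivity) (by norm_num)
          _ = _ := one_mul _
      refine (Finset.sum_le_card_nsmul _ _ _ c1).trans ?_
      rw [nsmul_eq_mul]
      have c2 := lowExp j (p * N) hpN
      calc (low.card : ℝ) * (2 * Real.exp (-(p * N / 2)))
          ≤ (n * (ε * 2 ^ (3 * j + 15))) * (2 * Real.exp (-(p * N / 2))) :=
            mul_le_mul_of_nonneg_right hlowcard (by positivity)
        _ = n * ε * (2 ^ (3 * j + 15) * (2 * Real.exp (-(p * N / 2)))) := by ring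
        _ ≤ n * ε * 1 := mul_le_mul_of_nonneg_left c2 (by positivity)
        _ = ε * n := by ring
    have b4 := sum34 G col D L (fun i => Real.exp (-(ε * (3 / 2) ^ i))) (fun i => (Real.exp_pos _).le)
    beta_reduce at b4
    have b5 : ∑ u : V, (((L ∩ eim (dstar G u)).card : ℝ) * Real.exp (-(ε * G.degree u))
        + (((darts G L).filter (fun p => p.1 = u)).card : ℝ)
          * (2 * G.degree u * Real.exp (-(ε * (3 / 2) ^ (Nat.log 2 (G.degree u))))))
        ≤ ∑ u : V, ε := Finset.sum_le_sum (fun u _ => perVertex G col D h u)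
    rw [Finset.sum_add_distrib, Finset.sum_const, nsmul_eq_mul, Finset.card_univ] at b5
    have b6 := add_le_add b1 (add_le_add b2 b3)
    refine b6.trans ?_
    rw [← hn] at b5
    linarith
  have hBsum : ∑ t ∈ B, ((L ∩ Aset G col D t).card : ℝ) ≤ 2 * (ε * n) := by
    refine le_trans (le_of_eq ?_) (hl3.trans hrhs)
    refine Finset.sum_congr ?_ (fun _ _ => rfl)
    rw [hB, hR]
    ext t
    rw [Finset.mem_filter, Finset.mem_filter]
    refine and_congr_right (fun _ => ?_)
    have hcc : ((L.filter (fun e => ∀ P ∈ l, e ∉ P)) ∩ Aset G col D t).card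
      = ((L.filter (fun e => ∀ P ∈ l, e ∉ P)) ∩ Aset G col D t).card := rfl
    convert Iff.rfl
  -- new set
  set X := B.biUnion (fun t => R ∩ Aset G col D t) with hX
  have hXcard : (X.card : ℝ) ≤ 2 * (ε * n) := by
    have h1 : X.card ≤ ∑ t ∈ B, (L ∩ Aset G col D t).card := by
      refine Finset.card_biUnion_le.trans (Finset.sum_le_sum (fun t _ => Finset.card_le_card ?_))
      exact Finset.inter_subset_inter_right (Finset.filter_subset _ _)
    have h2 : (X.card : ℝ) ≤ ∑ t ∈ B, ((L ∩ Aset G col D t).card : ℝ) := by exact_mod_cast h1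
    exact h2.trans hBsum
  have hRL : R ⊆ L := Finset.filter_subset _ _
  have htest : ∀ t ∈ T, ((R \ X) ∩ Aset G col D t).card < qn G D j t := by
    intro t ht
    by_cases htB : t ∈ B
    · have : (R \ X) ∩ Aset G col D t = ∅ := by
        rw [Finset.eq_empty_iff_forall_notMem]
        intro e he
        rw [Finset.mem_inter, Finset.mem_sdiff] at he
        apply he.1.2
        rw [hX, Finset.mem_biUnion]
        exact ⟨t, htB, Finset.mem_inter.mpr ⟨he.1.1, he.2⟩⟩
      rw [this, Finset.card_empty]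
      rcases t with u | t | e <;> simp [qn]
    · have h1 : ¬ (qn G D j t ≤ (R ∩ Aset G col D t).card) := by
        intro h2
        exact htB (Finset.mem_filter.mpr ⟨ht, h2⟩)
      refine lt_of_le_of_lt (Finset.card_le_card ?_) (not_le.mp h1)
      exact Finset.inter_subset_inter_right Finset.sdiff_subset
  refine ⟨R \ X, Finset.sdiff_subset.trans hRL, ?_, ?_⟩
  · refine ⟨fun e he => h.sub e (hRL (Finset.mem_sdiff.mp he).1), ?_, ?_, ?_⟩
    · intro p hp
      by_contra hlt
      push Not at hlt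
      rw [mem_darts] at hp
      have hlt' : G.degree p.1 < 2 ^ (3 * j + 15) := by
        rw [show 3 * (j + 1) + 12 = 3 * j + 15 by ring] at hlt
        exact hlt
      have hplow : s(p.1, p.2) ∈ low := by
        rw [hlow, Finset.mem_filter]
        exact ⟨hRL (Finset.mem_sdiff.mp hp.2).1, p.1, Sym2.mem_mk_left _ _, hlt'⟩
      have hT' : (Sum.inr (Sum.inr s(p.1, p.2)) : TT V σ) ∈ T := by
        rw [hT]; unfold Tset
        rw [Finset.inr_mem_disjSum, Finset.inr_mem_disjSum]
        exact hplow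
      have h1 := htest _ hT'
      simp only [qn, Aset, Sum.elim_inr, Nat.lt_one_iff, Finset.card_eq_zero] at h1
      rw [Finset.eq_empty_iff_forall_notMem] at h1
      exact h1 _ (Finset.mem_inter.mpr ⟨hp.2, Finset.mem_singleton_self _⟩)
    · intro u
      have hT' : (Sum.inl u : TT V σ) ∈ T := by
        rw [hT]; unfold Tset
        rw [Finset.inl_mem_disjSum]
        exact Finset.mem_univ _
      have h1 := htest _ hT'
      simp only [qn, Aset, Sum.elim_inl] at h1
      exact (Nat.le_floor_iff (by positivity)).mp (Nat.lt_succ_iff.mp h1)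
    · rintro ⟨s, i, κ⟩
      by_cases hmem : ((s, i, κ) : σ × ℕ × (V ⊕ ℕ)) ∈ (T34 col : Finset (σ × ℕ × (V ⊕ ℕ)))
      · have hT' : (Sum.inr (Sum.inl (s, i, κ)) : TT V σ) ∈ T := by
          rw [hT]; unfold Tset
          rw [Finset.inr_mem_disjSum, Finset.inl_mem_disjSum]
          exact hmem
        have h1 := htest _ hT'
        simp only [qn, Aset, Sum.elim_inl, Sum.elim_inr] at h1
        exact (Nat.le_floor_iff (mul_nonneg (by positivity) (q34_nonneg G D _ _))).mp
          (Nat.lt_succ_iff.mp h1)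
      · rw [eim_dset_empty (L := L) G col D s i κ hmem, Finset.inter_empty, Finset.card_empty]
        push_cast
        exact mul_nonneg (by positivity) (q34_nonneg G D _ _)
  · have hc1 : Cov G col (L \ R) N := by
      refine ⟨l, by rw [hl1], hl2, ?_⟩
      intro e he
      rw [Finset.mem_sdiff, hR, Finset.mem_filter] at he
      by_contra hno
      push Not at hno
      exact he.2 ⟨he.1, fun P hP heP => hno P hP heP⟩
    have hc2 : Cov G col X (2 * (ε * n)) := by
      refine (Cov.single (fun e he => ?_)).mono (Finset.Subset.refl _) hXcard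
      rw [hX, Finset.mem_biUnion] at he
      obtain ⟨t, _, he⟩ := he
      exact h.sub e (hRL (Finset.mem_inter.mp he).1)
    refine (hc1.union hc2).mono ?_ ?_
    · intro e he
      rw [Finset.mem_sdiff, Finset.mem_sdiff] at he
      rw [Finset.mem_union, Finset.mem_sdiff]
      by_cases heR : e ∈ R
      · right
        by_contra heX
        exact he.2 ⟨heR, heX⟩
      · left; exact ⟨he.1, heR⟩
    · have : ((6 * (j : ℝ) + 38) * 8640 + 3) * (ε * n)
          = (6 * (j : ℝ) + 38) * (8640 * (ε * n)) + ε * n + 2 * (ε * n) := by ring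
      rw [this]
      linarith

/-- all stages -/
theorem allStages (hprop : ∀ a b c, G.Adj a b → G.Adj a c → b ≠ c → col s(a, b) ≠ col s(a, c))
    (hg : ∀ s, ∑ u ∈ Finset.univ.filter (fun u => G.Adj (D.base s) u ∧ D.sl (D.base s) u = s),
      wt G u ≤ 2) (hcard : (Fintype.card σ : ℝ) ≤ 3 * Fintype.card V) (d : ℕ) :
    ∀ (j : ℕ) (L : Finset (Sym2 V)), j + d = Fintype.card V → Inv G col D j L →
      Cov G col L (328323 * ((2 * j + 4) * ((1 / 2) ^ j * Fintype.card V))) := by
  induction d with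
  | zero =>
    intro j L hj hL
    have hemp : L = ∅ := by
      by_contra hne
      obtain ⟨p0, hp0⟩ : (darts G L).Nonempty := by
        rw [← Finset.card_pos]
        exact lt_of_lt_of_le (Finset.card_pos.mpr (Finset.nonempty_iff_ne_empty.mpr hne))
          (card_le_darts G L hL.sub)
      have h1 := (hL.deg p0 hp0).trans (G.degree_lt_card_verts p0.1).le
      have h2 : Fintype.card V < 2 ^ Fintype.card V := Nat.lt_two_pow_self
      have h3 : 2 ^ Fintype.card V ≤ 2 ^ (3 * j + 12) := Nat.pow_le_pow_right (by norm_num) (by omega)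
      omega
    rw [hemp]
    refine ⟨[], ?_, by simp, by simp⟩
    simp only [List.length_nil, Nat.cast_zero]
    positivity
  | succ d ih =>
    intro j L hj hL
    rcases L.eq_empty_or_nonempty with hemp | hne
    · rw [hemp]
      refine ⟨[], ?_, by simp, by simp⟩
      simp only [List.length_nil, Nat.cast_zero]
      positivity
    · obtain ⟨L', h1, h2, h3⟩ := stage G col D hprop hg hcard hL hne
      have h4 := ih (j + 1) L' (by omega) h2
      refine (h3.union h4).mono ?_ ?_
      · intro e he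
        rw [Finset.mem_union, Finset.mem_sdiff]
        by_cases h : e ∈ L'
        · exact Or.inr h
        · exact Or.inl ⟨he, h⟩
      · push_cast
        rw [pow_succ]
        have hx : (0 : ℝ) ≤ (1 / 2) ^ j * Fintype.card V := by positivity
        have hj0 : (0 : ℝ) ≤ j := by positivity
        nlinarith [mul_nonneg hj0 hx]

end

end Pool.Agent.Helper491.RP
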